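import Pool.Agent.Helper25.EV.Fire

/-!
# Theory of firing processes: loops, cuts
-/

set_option autoImplicit false

namespace Pool.Agent.Helper88.RT

open Pool.Agent.Helper25.EV Ordinal Order

/-! ### A1: loops exist -/

/-- **A1.** Every firing process has a loop with countable end. -/
theorem exists_loop (F : Ordinal.{0} → Set ℕ) : ∃ η δ, Loop F η δ ∧ δ < ω₁ := by
  classical
  -- bounded cells
  let Bd : ℕ → Prop := fun c => ∃ b < ω₁, ∀ α, b ≤ α → α < ω₁ → c ∉ F α
  let bd : ℕ → Ordinal.{0} := fun c => if h : Bd c then h.choose else 0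
  have hω : (0 : Ordinal.{0}) < ω₁ := omega_pos 1
  have hbd : ∀ c, bd c < ω₁ := by
    intro c
    by_cases h : Bd c
    · have : bd c = h.choose := dif_pos h
      rw [this]
      exact h.choose_spec.1
    · have : bd c = 0 := dif_neg h
      rw [this]
      exact hω
  have hbd2 : ∀ c, Bd c → ∀ α, bd c ≤ α → α < ω₁ → c ∉ F α := by
    intro c h
    have : bd c = h.choose := dif_pos h
    rw [this]
    exact h.choose_spec.2
  have hub : ∀ c, ¬ Bd c → ∀ b < ω₁, ∃ α, b ≤ α ∧ α < ω₁ ∧ c ∈ F α := by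
    intro c h b hb
    by_contra hcon
    push Not at hcon
    exact h ⟨b, hb, fun α h1 h2 => hcon α h1 h2⟩
  -- next firing
  let fi : ℕ → Ordinal.{0} → Ordinal.{0} := fun c b =>
    if h : ∃ α, b ≤ α ∧ α < ω₁ ∧ c ∈ F α then h.choose else b
  have hfi1 : ∀ c b, b < ω₁ → fi c b < ω₁ := by
    intro c b hb
    by_cases h : ∃ α, b ≤ α ∧ α < ω₁ ∧ c ∈ F α
    · have : fi c b = h.choose := dif_pos h
      rw [this]
      exact h.choose_spec.2.1
    · have : fi c b = b := dif_neg h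
      rw [this]
      exact hb
  have hfi2 : ∀ c b, b ≤ fi c b := by
    intro c b
    by_cases h : ∃ α, b ≤ α ∧ α < ω₁ ∧ c ∈ F α
    · have : fi c b = h.choose := dif_pos h
      rw [this]
      exact h.choose_spec.1
    · have : fi c b = b := dif_neg h
      rw [this]
  have hfi3 : ∀ c, ¬ Bd c → ∀ b < ω₁, c ∈ F (fi c b) := by
    intro c hc b hb
    have h := hub c hc b hb
    have : fi c b = h.choose := dif_pos h
    rw [this]
    exact h.choose_spec.2.2
  let nx : Ordinal.{0} → Ordinal.{0} := fun b => ⨆ c, succ (fi c b)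
  have hlimω : IsSuccLimit (ω₁ : Ordinal.{0}) := Cardinal.isSuccLimit_omega 1
  have hnx1 : ∀ b, b < ω₁ → nx b < ω₁ := by
    intro b hb
    exact Ordinal.iSup_lt_omega_one (fun c => hlimω.succ_lt (hfi1 c b hb))
  have hnx2 : ∀ c b, fi c b < nx b := by
    intro c b
    exact lt_of_lt_of_le (lt_succ _) (Ordinal.le_iSup (fun c => succ (fi c b)) c)
  have hnx3 : ∀ b, b < nx b := fun b => lt_of_le_of_lt (hfi2 0 b) (hnx2 0 b)
  let it : Ordinal.{0} → ℕ → Ordinal.{0} := fun b n => nx^[n] b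
  have hit : ∀ b n, it b (n + 1) = nx (it b n) := fun b n => Function.iterate_succ_apply' nx n b
  have hit1 : ∀ b, b < ω₁ → ∀ n, it b n < ω₁ := by
    intro b hb n
    induction n with
    | zero => exact hb
    | succ n ih =>
      rw [hit]
      exact hnx1 _ ih
  let li : Ordinal.{0} → Ordinal.{0} := fun b => ⨆ n, it b n
  have hli1 : ∀ b, b < ω₁ → li b < ω₁ := fun b hb => Ordinal.iSup_lt_omega_one (hit1 b hb)
  have hli2 : ∀ b n, it b n < li b := by
    intro b n
    refine lt_of_lt_of_le ?_ (Ordinal.le_iSup (it b) (n + 1))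
    rw [hit]
    exact hnx3 _
  have hli3 : ∀ b, b < li b := fun b => hli2 b 0
  have hli4 : ∀ b a, a < li b → ∃ n, a < it b n := fun b a h => Ordinal.lt_iSup_iff.1 h
  have hli5 : ∀ b, IsSuccLimit (li b) := by
    intro b
    rw [Ordinal.isSuccLimit_iff]
    refine ⟨(lt_of_le_of_lt zero_le (hli3 b)).ne', ?_⟩
    rw [isSuccPrelimit_iff_succ_lt]
    intro a ha
    obtain ⟨n, hn⟩ := hli4 b a ha
    exact lt_of_le_of_lt (succ_le_of_lt hn) (hli2 b n)
  -- the cells which are silent on a final segment of `li b`, for `b` beyond all bounds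
  have hZ : ∀ b, (∀ c, bd c ≤ b) → b < ω₁ → Zc F (li b) = {c | Bd c} := by
    intro b hb hbω
    ext c
    constructor
    · rintro ⟨a, ha, hsil⟩
      by_contra hc
      obtain ⟨n, hn⟩ := hli4 b a ha
      have h1 : fi c (it b n) < it b (n + 1) := by
        rw [hit]
        exact hnx2 c _
      exact hsil (fi c (it b n)) (hn.le.trans (hfi2 c _)) (h1.trans (hli2 b (n + 1)))
        (hfi3 c hc _ (hit1 b hbω n))
    · intro hc
      refine ⟨b, hli3 b, ?_⟩
      intro α h1 h2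
      exact hbd2 c hc α ((hb c).trans h1) (h2.trans (hli1 b hbω))
  let b0 : Ordinal.{0} := ⨆ c, bd c
  have hb0 : b0 < ω₁ := Ordinal.iSup_lt_omega_one hbd
  have hb0' : ∀ c, bd c ≤ b0 := fun c => Ordinal.le_iSup bd c
  refine ⟨li b0, li (li b0), ⟨hli3 _, hli5 _, hli5 _, ?_, ?_⟩, hli1 _ (hli1 _ hb0)⟩
  · rw [hZ b0 hb0' hb0, hZ (li b0) (fun c => (hb0' c).trans (hli3 b0).le) (hli1 _ hb0)]
  · intro c hc α h1 h2
    rw [hZ b0 hb0' hb0] at hc
    exact hbd2 c hc α ((hb0' c).trans ((hli3 b0).le.trans h1)) (h2.trans (hli1 _ (hli1 _ hb0)))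

/-! ### A2: the first loop -/

/-- `Σ` is the end of the first loop, `ζ` its beginning. -/
structure First (F : Ordinal.{0} → Set ℕ) (ζ σ : Ordinal.{0}) : Prop where
  loop : Loop F ζ σ
  least : ∀ η δ, Loop F η δ → σ ≤ δ

/-- **A2.** The first loop exists. -/
theorem exists_first (F : Ordinal.{0} → Set ℕ) : ∃ ζ σ, First F ζ σ ∧ σ < ω₁ := by
  classical
  obtain ⟨η, δ, h, hδ⟩ := exists_loop F
  have hne : {δ | ∃ η, Loop F η δ}.Nonempty := ⟨δ, η, h⟩
  obtain ⟨ζ, hζ⟩ := csInf_mem hne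
  refine ⟨ζ, sInf {δ | ∃ η, Loop F η δ}, ⟨hζ, ?_⟩, ?_⟩
  · intro η' δ' h'
    exact csInf_le' ⟨η', h'⟩
  · exact lt_of_le_of_lt (csInf_le' ⟨η, h⟩) hδ

theorem First.pre_iff {F : Ordinal.{0} → Set ℕ} {ζ σ : Ordinal.{0}} (h : First F ζ σ)
    (β : Ordinal.{0}) : Pre F β ↔ β < σ := by
  constructor
  · intro hβ
    exact hβ ζ σ h.loop
  · intro hβ η δ hl
    exact lt_of_lt_of_le hβ (h.least η δ hl)

/-- The beginning of the first loop is unique. -/
theorem First.unique {F : Ordinal.{0} → Set ℕ} {ζ ζ' σ : Ordinal.{0}} (h : First F ζ σ)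
    (h' : Loop F ζ' σ) : ζ = ζ' := by
  have key : ∀ a b : Ordinal.{0}, Loop F a σ → Loop F b σ → ¬ a < b := by
    intro a b ha hb hab
    have hl : Loop F a b := ⟨hab, ha.lim1, hb.lim1, ha.same.trans hb.same.symm, by
      intro c hc α h1 h2
      exact ha.sil c hc α h1 (h2.trans hb.lt)⟩
    exact absurd (h.least a b hl) (not_le.2 hb.lt)
  rcases lt_trichotomy ζ ζ' with h1 | h1 | h1
  · exact absurd h1 (key _ _ h.loop h')
  · exact h1
  · exact absurd h1 (key _ _ h' h.loop)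

/-! ### A3: the cuts -/

/-- The schedule: every cell is scheduled infinitely often. -/
def sch (j : ℕ) : ℕ := (Nat.unpair j).1

theorem sch_le (j : ℕ) : sch j ≤ j := Nat.unpair_left_le j

theorem sch_inf (c n : ℕ) : ∃ j, n ≤ j ∧ sch j = c := by
  refine ⟨Nat.pair c n, Nat.right_le_pair c n, ?_⟩
  simp [sch]

open Classical in
/-- One step of the cuts: `sil = true` guesses that the cell `c` is eventually silent. -/
noncomputable def cutS (F : Ordinal.{0} → Set ℕ) (sil : Bool) (c : ℕ) (γ β : Ordinal.{0}) :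
    Ordinal.{0} :=
  if sil = true then sInf {γ' | γ ≤ γ' ∧ Silent F c γ' β}
  else if ∃ α, γ ≤ α ∧ α < β ∧ c ∈ F α then succ (sInf {α | γ ≤ α ∧ α < β ∧ c ∈ F α})
  else max γ β

/-- The cuts `γ_j(g, β)`. -/
noncomputable def cut (F : Ordinal.{0} → Set ℕ) (g : ℕ → Bool) (β : Ordinal.{0}) :
    ℕ → Ordinal.{0}
  | 0 => 0
  | j + 1 => cutS F (g (sch j)) (sch j) (cut F g β j) β

theorem silent_self (F : Ordinal.{0} → Set ℕ) (c : ℕ) (a b : Ordinal.{0}) (h : b ≤ a) :
    Silent F c a b := fun _ h1 h2 => absurd (lt_of_lt_of_le h2 h) (not_lt.2 h1)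

theorem cutS_true (F : Ordinal.{0} → Set ℕ) (c : ℕ) (γ β : Ordinal.{0}) :
    γ ≤ cutS F true c γ β ∧ Silent F c (cutS F true c γ β) β ∧
      ∀ γ', γ ≤ γ' → Silent F c γ' β → cutS F true c γ β ≤ γ' := by
  have h0 : cutS F true c γ β = sInf {γ' | γ ≤ γ' ∧ Silent F c γ' β} := by simp [cutS]
  rw [h0]
  have hne : {γ' | γ ≤ γ' ∧ Silent F c γ' β}.Nonempty :=
    ⟨max γ β, le_max_left _ _, silent_self F c _ _ (le_max_right _ _)⟩
  have h1 := csInf_mem hne
  exact ⟨h1.1, h1.2, fun γ' h2 h3 => csInf_le' ⟨h2, h3⟩⟩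

theorem cutS_false_pos (F : Ordinal.{0} → Set ℕ) (c : ℕ) (γ β : Ordinal.{0})
    (h : ∃ α, γ ≤ α ∧ α < β ∧ c ∈ F α) :
    ∃ α, cutS F false c γ β = succ α ∧ γ ≤ α ∧ α < β ∧ c ∈ F α ∧
      ∀ α', γ ≤ α' → α' < β → c ∈ F α' → α ≤ α' := by
  refine ⟨sInf {α | γ ≤ α ∧ α < β ∧ c ∈ F α}, by simp [cutS, h], ?_⟩
  have h1 := csInf_mem (s := {α | γ ≤ α ∧ α < β ∧ c ∈ F α}) h
  exact ⟨h1.1, h1.2.1, h1.2.2, fun α' h2 h3 h4 => csInf_le' ⟨h2, h3, h4⟩⟩

theorem cutS_false_neg (F : Ordinal.{0} → Set ℕ) (c : ℕ) (γ β : Ordinal.{0})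
    (h : ¬ ∃ α, γ ≤ α ∧ α < β ∧ c ∈ F α) : cutS F false c γ β = max γ β := by
  simp only [cutS, Bool.false_eq_true, if_false, if_neg h]

theorem le_cutS (F : Ordinal.{0} → Set ℕ) (s : Bool) (c : ℕ) (γ β : Ordinal.{0}) :
    γ ≤ cutS F s c γ β := by
  cases s with
  | true => exact (cutS_true F c γ β).1
  | false =>
    by_cases h : ∃ α, γ ≤ α ∧ α < β ∧ c ∈ F α
    · obtain ⟨α, h1, h2, _⟩ := cutS_false_pos F c γ β h
      rw [h1]
      exact h2.trans (le_succ α)
    · rw [cutS_false_neg F c γ β h]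
      exact le_max_left _ _

theorem cut_mono (F : Ordinal.{0} → Set ℕ) (g : ℕ → Bool) (β : Ordinal.{0}) :
    Monotone (cut F g β) := monotone_nat_of_le_succ fun j => le_cutS F _ _ _ _

/-- The cut only depends on the guesses on the cells below `j`. -/
theorem cut_congr (F : Ordinal.{0} → Set ℕ) (g g' : ℕ → Bool) (β : Ordinal.{0}) (j : ℕ)
    (h : ∀ c < j, g c = g' c) : cut F g β j = cut F g' β j := by
  induction j with
  | zero => rfl
  | succ j ih =>
    simp only [cut]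
    rw [ih (fun c hc => h c (by omega)), h (sch j) (by have := sch_le j; omega)]

/-! ### A4: stability -/

theorem cutS_stable (F : Ordinal.{0} → Set ℕ) (s : Bool) (c : ℕ) (γ β β' : Ordinal.{0})
    (h : cutS F s c γ β < β') (h' : β' ≤ β) : cutS F s c γ β' = cutS F s c γ β := by
  cases s with
  | true =>
    obtain ⟨h1, h2, h3⟩ := cutS_true F c γ β
    obtain ⟨h1', h2', h3'⟩ := cutS_true F c γ β'
    apply le_antisymm
    · exact h3' _ h1 (fun α ha hb => h2 α ha (hb.trans_le h'))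
    · apply h3 _ h1'
      intro α ha hb
      rcases lt_or_ge α β' with hα | hα
      · exact h2' α ha hα
      · exact h2 α (h.le.trans hα) hb
  | false =>
    by_cases hex : ∃ α, γ ≤ α ∧ α < β ∧ c ∈ F α
    · obtain ⟨α, h1, h2, h3, h4, h5⟩ := cutS_false_pos F c γ β hex
      rw [h1] at h
      have hex' : ∃ α, γ ≤ α ∧ α < β' ∧ c ∈ F α := ⟨α, h2, (lt_succ α).trans h, h4⟩
      obtain ⟨α', h1', h2', h3', h4', h5'⟩ := cutS_false_pos F c γ β' hex'
      rw [h1, h1']
      congr 1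
      exact le_antisymm (h5' α h2 ((lt_succ α).trans h) h4) (h5 α' h2' (h3'.trans_le h') h4')
    · rw [cutS_false_neg F c γ β hex] at h
      exact absurd (lt_of_le_of_lt (le_max_right γ β) h) (not_lt.2 h')

/-- **A4.** -/
theorem cut_stable (F : Ordinal.{0} → Set ℕ) (g : ℕ → Bool) (β β' : Ordinal.{0}) (j : ℕ)
    (h : cut F g β j < β') (h' : β' ≤ β) : cut F g β' j = cut F g β j := by
  induction j with
  | zero => rfl
  | succ j ih =>
    have h1 : cut F g β j < β' := lt_of_le_of_lt (cut_mono F g β (Nat.le_succ j)) h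
    simp only [cut]
    rw [ih h1]
    exact cutS_stable F _ _ _ _ _ h h'

/-! ### A5: limits -/

/-- The true guess at `β`. -/
def TrueG (F : Ordinal.{0} → Set ℕ) (β : Ordinal.{0}) (g : ℕ → Bool) : Prop :=
  ∀ c, g c = true ↔ c ∈ Zc F β

theorem fire_of_not_Zc {F : Ordinal.{0} → Set ℕ} {β : Ordinal.{0}} {c : ℕ} (h : c ∉ Zc F β)
    (a : Ordinal.{0}) (ha : a < β) : ∃ α, a ≤ α ∧ α < β ∧ c ∈ F α := by
  by_contra hcon
  push Not at hcon
  exact h ⟨a, ha, fun α h1 h2 => hcon α h1 h2⟩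

theorem cutS_lt {F : Ordinal.{0} → Set ℕ} {β γ : Ordinal.{0}} (hβ : IsSuccLimit β)
    {g : ℕ → Bool} (hg : TrueG F β g) (hγ : γ < β) (c : ℕ) : cutS F (g c) c γ β < β := by
  cases hgc : g c with
  | true =>
    obtain ⟨a, ha, hs⟩ := (hg c).1 hgc
    refine lt_of_le_of_lt ((cutS_true F c γ β).2.2 (max γ a) (le_max_left _ _) ?_)
      (max_lt hγ ha)
    intro α h1 h2
    exact hs α ((le_max_right _ _).trans h1) h2
  | false =>
    have hc : c ∉ Zc F β := fun h => by
      rw [(hg c).2 h] at hgc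
      cases hgc
    obtain ⟨α, h1, h2, h3, _⟩ := cutS_false_pos F c γ β (fire_of_not_Zc hc γ hγ)
    rw [h1]
    exact hβ.succ_lt h3

/-- **A5a.** -/
theorem cut_lt {F : Ordinal.{0} → Set ℕ} {β : Ordinal.{0}} (hβ : IsSuccLimit β)
    {g : ℕ → Bool} (hg : TrueG F β g) (j : ℕ) : cut F g β j < β := by
  induction j with
  | zero => exact hβ.bot_lt
  | succ j ih => exact cutS_lt hβ hg ih (sch j)

theorem cut_sup_limit {F : Ordinal.{0} → Set ℕ} {β : Ordinal.{0}} (hβ : IsSuccLimit β)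
    {g : ℕ → Bool} (hg : TrueG F β g) (hclock : ∀ α < β, 0 ∈ F α) (j : ℕ) :
    ∃ j', cut F g β j < cut F g β j' := by
  obtain ⟨i, hi, hsi⟩ := sch_inf 0 j
  refine ⟨i + 1, ?_⟩
  have h0 : (0 : ℕ) ∉ Zc F β := by
    rintro ⟨a, ha, hs⟩
    exact hs a le_rfl ha (hclock a ha)
  have hg0 : g 0 = false := by
    by_contra h
    exact h0 ((hg 0).1 (by simpa using h))
  have h1 : cut F g β (i + 1) = cutS F (g (sch i)) (sch i) (cut F g β i) β := rfl
  rw [h1, hsi, hg0]
  obtain ⟨α, h2, h3, _⟩ := cutS_false_pos F 0 (cut F g β i) β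
    (fire_of_not_Zc h0 _ (cut_lt hβ hg i))
  rw [h2]
  exact lt_of_le_of_lt ((cut_mono F g β hi).trans h3) (lt_succ α)

/-- **A5b.** The supremum of the cuts is `β` or the beginning of a loop with end `β`. -/
theorem cut_sup {F : Ordinal.{0} → Set ℕ} {β : Ordinal.{0}} (hβ : IsSuccLimit β)
    {g : ℕ → Bool} (hg : TrueG F β g) (hclock : ∀ α < β, 0 ∈ F α) :
    (⨆ j, cut F g β j) = β ∨ Loop F (⨆ j, cut F g β j) β := by
  set s := ⨆ j, cut F g β j with hs
  have hsβ : s ≤ β := Ordinal.iSup_le fun j => (cut_lt hβ hg j).le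
  rcases hsβ.eq_or_lt with h | h
  · exact Or.inl h
  right
  have hlt : ∀ j, cut F g β j < s := by
    intro j
    obtain ⟨j', hj'⟩ := cut_sup_limit hβ hg hclock j
    exact lt_of_lt_of_le hj' (Ordinal.le_iSup (cut F g β) j')
  have hex : ∀ a, a < s → ∃ j, a < cut F g β j := fun a ha => Ordinal.lt_iSup_iff.1 ha
  have hlim : IsSuccLimit s := by
    rw [Ordinal.isSuccLimit_iff]
    refine ⟨(lt_of_le_of_lt zero_le (hlt 0)).ne', ?_⟩
    rw [isSuccPrelimit_iff_succ_lt]
    intro a ha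
    obtain ⟨j, hj⟩ := hex a ha
    exact lt_of_le_of_lt (succ_le_of_lt hj) (hlt j)
  -- cells guessed silent are silent from some cut on
  have hsil : ∀ c ∈ Zc F β, ∃ j, Silent F c (cut F g β j) β := by
    intro c hc
    obtain ⟨i, _, hi⟩ := sch_inf c 0
    refine ⟨i + 1, ?_⟩
    have h1 : cut F g β (i + 1) = cutS F (g (sch i)) (sch i) (cut F g β i) β := rfl
    rw [h1, hi, (hg c).2 hc]
    exact (cutS_true F c _ β).2.1
  refine ⟨h, hlim, hβ, ?_, ?_⟩
  · ext c
    constructor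
    · rintro ⟨a, ha, hsa⟩
      by_contra hc
      obtain ⟨j, hj⟩ := hex a ha
      obtain ⟨i, hi, hsi⟩ := sch_inf c j
      have hgc : g c = false := by
        by_contra h2
        exact hc ((hg c).1 (by simpa using h2))
      obtain ⟨α, h2, h3, _, h5, _⟩ := cutS_false_pos F c (cut F g β i) β
        (fire_of_not_Zc hc _ (cut_lt hβ hg i))
      have h1 : cut F g β (i + 1) = succ α := by
        have : cut F g β (i + 1) = cutS F (g (sch i)) (sch i) (cut F g β i) β := rfl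
        rw [this, hsi, hgc, h2]
      refine hsa α (hj.le.trans ((cut_mono F g β hi).trans h3)) ?_ h5
      have := hlt (i + 1)
      rw [h1] at this
      exact (lt_succ α).trans this
    · intro hc
      obtain ⟨j, hj⟩ := hsil c hc
      exact ⟨cut F g β j, hlt j, fun α h1 h2 => hj α h1 (h2.trans h)⟩
  · intro c hc α h1 h2
    have hc' : c ∈ Zc F β := by
      by_contra hcon
      obtain ⟨a, ha, hsa⟩ := hc
      -- `c` fires below `s` after `a`
      obtain ⟨j, hj⟩ := hex a ha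
      obtain ⟨i, hi, hsi⟩ := sch_inf c j
      have hgc : g c = false := by
        by_contra h3
        exact hcon ((hg c).1 (by simpa using h3))
      obtain ⟨α', h4, h5, _, h6, _⟩ := cutS_false_pos F c (cut F g β i) β
        (fire_of_not_Zc hcon _ (cut_lt hβ hg i))
      have h7 : cut F g β (i + 1) = succ α' := by
        have : cut F g β (i + 1) = cutS F (g (sch i)) (sch i) (cut F g β i) β := rfl
        rw [this, hsi, hgc, h4]
      refine hsa α' (hj.le.trans ((cut_mono F g β hi).trans h5)) ?_ h6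
      have := hlt (i + 1)
      rw [h7] at this
      exact (lt_succ α').trans this
    obtain ⟨j, hj⟩ := hsil c hc'
    exact hj α ((hlt j).le.trans h1) h2

/-- Before the end of the first loop the cuts of a limit are cofinal. -/
theorem cut_sup_pre {F : Ordinal.{0} → Set ℕ} {β : Ordinal.{0}} (hβ : IsSuccLimit β)
    (hpre : Pre F β) {g : ℕ → Bool} (hg : TrueG F β g) (hclock : ∀ α < β, 0 ∈ F α) :
    (⨆ j, cut F g β j) = β := by
  rcases cut_sup hβ hg hclock with h | h
  · exact h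
  · exact absurd (hpre _ _ h) (lt_irrefl _)

theorem cut_cofinal {F : Ordinal.{0} → Set ℕ} {β : Ordinal.{0}} (hβ : IsSuccLimit β)
    (hpre : Pre F β) {g : ℕ → Bool} (hg : TrueG F β g) (hclock : ∀ α < β, 0 ∈ F α)
    (a : Ordinal.{0}) (ha : a < β) : ∃ j, a < cut F g β j := by
  rw [← cut_sup_pre hβ hpre hg hclock] at ha
  exact Ordinal.lt_iSup_iff.1 ha

/-- **A5c.** The cuts at the two ends of a loop agree. -/
theorem cut_loop {F : Ordinal.{0} → Set ℕ} {ζ δ : Ordinal.{0}} (hl : Loop F ζ δ)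
    {g : ℕ → Bool} (hg : TrueG F ζ g) (j : ℕ) : cut F g δ j = cut F g ζ j := by
  induction j with
  | zero => rfl
  | succ j ih =>
    simp only [cut]
    rw [ih]
    have hlt := cut_lt hl.lim1 hg j
    cases hgc : g (sch j) with
    | true =>
      have hc : sch j ∈ Zc F ζ := (hg _).1 hgc
      obtain ⟨h1, h2, h3⟩ := cutS_true F (sch j) (cut F g ζ j) ζ
      obtain ⟨h1', h2', h3'⟩ := cutS_true F (sch j) (cut F g ζ j) δ
      apply le_antisymm
      · apply h3' _ h1
        intro α ha hb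
        rcases lt_or_ge α ζ with hα | hα
        · exact h2 α ha hα
        · exact hl.sil _ hc α hα hb
      · exact h3 _ h1' (fun α ha hb => h2' α ha (hb.trans hl.lt))
    | false =>
      have hc : sch j ∉ Zc F ζ := fun h => by
        rw [(hg _).2 h] at hgc
        cases hgc
      have hex := fire_of_not_Zc hc _ hlt
      have hex' : ∃ α, cut F g ζ j ≤ α ∧ α < δ ∧ sch j ∈ F α := by
        obtain ⟨α, h1, h2, h3⟩ := hex
        exact ⟨α, h1, h2.trans hl.lt, h3⟩
      obtain ⟨α, h1, h2, h3, h4, h5⟩ := cutS_false_pos F _ _ _ hex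
      obtain ⟨α', h1', h2', h3', h4', h5'⟩ := cutS_false_pos F _ _ _ hex'
      rw [h1, h1']
      congr 1
      apply le_antisymm (h5' α h2 (h3.trans hl.lt) h4)
      have h6 : α' ≤ α := h5' α h2 (h3.trans hl.lt) h4
      exact h5 α' h2' (lt_of_le_of_lt h6 h3) h4'

theorem TrueG.loop {F : Ordinal.{0} → Set ℕ} {ζ δ : Ordinal.{0}} (hl : Loop F ζ δ)
    {g : ℕ → Bool} (hg : TrueG F ζ g) : TrueG F δ g := by
  intro c
  rw [hg c, hl.same]

end Pool.Agent.Helper88.RT
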