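import Pool.Agent.Helper88.RT.StL

/-! # Module ExtSem: extension of a code -/

set_option autoImplicit false

namespace Pool.Agent.Helper88.RT

open Pool.Agent.Helper25.EV Ordinal Encodable

theorem dec_ext {C : Set ℕ} {β : Ordinal.{0}} {lab : Ordinal.{0} → Set ℕ} {f : ℕ → Ordinal.{0}}
    (h : Dec C β lab f) :
    Dec (extC C (lab β)) (β + 1) lab (fun k => if k = 0 then β else f (k - 1)) := by
  obtain ⟨hb, hlt, hlab⟩ := h
  have hmem : ∀ k, domC C k → f k < β := fun k hk => hb.mapsTo hk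
  have hD : ∀ k, domC (extC C (lab β)) k ↔ k = 0 ∨ ∃ k', k = k' + 1 ∧ domC C k' := by
    intro k
    unfold extC
    rw [domC_mkC]
  have hf0 : (if (0 : ℕ) = 0 then β else f (0 - 1)) = β := if_pos rfl
  have hfs : ∀ k : ℕ, (if k + 1 = 0 then β else f (k + 1 - 1)) = f k := by
    intro k
    rw [if_neg (Nat.succ_ne_zero k), Nat.add_sub_cancel]
  refine ⟨⟨?_, ?_, ?_⟩, ?_, ?_⟩
  · intro k hk
    rcases (hD k).mp hk with h0 | ⟨k', h1, h2⟩
    · subst h0
      simp only [Set.mem_Iio, if_true]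
      rw [← Order.succ_eq_add_one]
      exact Order.lt_succ β
    · subst h1
      simp only [Set.mem_Iio]
      rw [hfs]
      rw [← Order.succ_eq_add_one]
      exact (hmem k' h2).trans (Order.lt_succ β)
  · intro k hk k₁ hk₁ he
    rcases (hD k).mp hk with h0 | ⟨k', h1, h2⟩ <;> rcases (hD k₁).mp hk₁ with h0' | ⟨k'', h1', h2'⟩
    · rw [h0, h0']
    · subst h0 h1'
      simp only [if_true] at he
      rw [hfs] at he
      exact absurd he (hmem k'' h2').ne'
    · subst h0' h1
      simp only [if_true] at he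
      rw [hfs] at he
      exact absurd he (hmem k' h2).ne
    · subst h1 h1'
      simp only at he
      rw [hfs, hfs] at he
      rw [hb.injOn h2 h2' he]
  · intro a ha
    have ha' : a < β + 1 := ha
    rw [← Order.succ_eq_add_one, Order.lt_succ_iff] at ha'
    rcases eq_or_lt_of_le ha' with he | hl
    · exact ⟨0, (hD 0).mpr (Or.inl rfl), by simp [he]⟩
    · obtain ⟨k, hk, hka⟩ := hb.surjOn (show a ∈ Set.Iio β from hl)
      exact ⟨k + 1, (hD (k + 1)).mpr (Or.inr ⟨k, rfl, hk⟩), by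
        change (if k + 1 = 0 then β else f (k + 1 - 1)) = a
        rw [hfs]; exact hka⟩
  · intro k k'
    rw [hD, hD]
    unfold extC
    rw [ltC_mkC]
    constructor
    · rintro ⟨k₁, h1, h2, h3⟩
      subst h1
      rcases h3 with h3 | ⟨k₂, h3, h4⟩
      · subst h3
        refine ⟨Or.inr ⟨k₁, rfl, h2⟩, Or.inl rfl, ?_⟩
        rw [hfs, hf0]
        exact hmem k₁ h2
      · subst h3
        obtain ⟨h5, h6, h7⟩ := (hlt k₁ k₂).mp h4
        refine ⟨Or.inr ⟨k₁, rfl, h2⟩, Or.inr ⟨k₂, rfl, h6⟩, ?_⟩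
        rw [hfs, hfs]
        exact h7
    · rintro ⟨h1, h2, h3⟩
      rcases h1 with h1 | ⟨k₁, h1, h1'⟩
      · subst h1
        rcases h2 with h2 | ⟨k₂, h2, h2'⟩
        · subst h2
          exact absurd h3 (lt_irrefl _)
        · subst h2
          rw [hfs, hf0] at h3
          exact absurd (h3.trans (hmem k₂ h2')) (lt_irrefl _)
      · subst h1
        refine ⟨k₁, rfl, h1', ?_⟩
        rcases h2 with h2 | ⟨k₂, h2, h2'⟩
        · exact Or.inl h2
        · subst h2
          rw [hfs, hfs] at h3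
          exact Or.inr ⟨k₂, rfl, (hlt k₁ k₂).mpr ⟨h1', h2', h3⟩⟩
  · intro k i
    rw [hD]
    unfold extC
    rw [labC_mkC]
    constructor
    · rintro (⟨h1, h2⟩ | ⟨k', h1, h2⟩)
      · subst h1
        exact ⟨Or.inl rfl, by rw [hf0]; exact h2⟩
      · subst h1
        obtain ⟨h3, h4⟩ := (hlab k' i).mp h2
        exact ⟨Or.inr ⟨k', rfl, h3⟩, by rw [hfs]; exact h4⟩
    · rintro ⟨h1 | ⟨k', h1, h2⟩, h3⟩
      · subst h1
        rw [hf0] at h3
        exact Or.inl ⟨rfl, h3⟩
      · subst h1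
        rw [hfs] at h3
        exact Or.inr ⟨k', rfl, (hlab k' i).mpr ⟨h2, h3⟩⟩

/-- the empty code -/
theorem dec_zero (lab : Ordinal.{0} → Set ℕ) : Dec ∅ 0 lab (fun _ => 0) := by
  have hD : ∀ k, ¬ domC ∅ k := fun k hk => hk
  refine ⟨⟨?_, ?_, ?_⟩, ?_, ?_⟩
  · intro k hk
    exact absurd hk (hD k)
  · intro k hk
    exact absurd hk (hD k)
  · intro a ha
    have ha' : a < 0 := ha
    exact absurd ha' (not_lt.mpr zero_le)
  · intro k k'
    constructor
    · intro h
      exact absurd h (fun h => h)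
    · rintro ⟨h, _⟩
      exact absurd h (hD k)
  · intro k i
    constructor
    · intro h
      exact absurd h (fun h => h)
    · rintro ⟨h, _⟩
      exact absurd h (hD k)

end Pool.Agent.Helper88.RT

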