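import Pool.Agent.Helper88.RT.CutSem
import Pool.Agent.Helper88.RT.ExtSem

/-! # Module InvMain: the invariant at `0` and at successors -/

set_option autoImplicit false

namespace Pool.Agent.Helper88.RT

open Pool.Agent.Helper25.EV Ordinal Encodable

variable (nl : List Instr) (lab : Real2 → Ordinal.{0} → Set ℕ)

theorem St_congr {al al' : Prop} {Y C Fl Fl' : Set ℕ} {M M' : List Bool → Set ℕ} (h1 : al ↔ al')
    (h2 : M = M') (h3 : Fl = Fl') : St al Y C M Fl = St al' Y C M' Fl' := by
  rw [h2, h3, propext h1]

theorem inv_zero (y : Real2) : Inv nl y (lab y) 0 := by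
  have h0 : mrun (mac nl) y 0 = St False (setOf' y) ∅ (fun _ => ∅) ∅ := mrun_zero nl y
  have hC : Cf nl y 0 = ∅ := by
    rw [Cf, h0, col2_St]
  refine ⟨?_, ?_⟩
  · rw [h0, hC]
    apply St_congr
    · constructor
      · exact False.elim
      · rintro ⟨α, h, _⟩
        exact absurd h.symm (by simp)
    · funext τ
      ext n
      constructor
      · exact fun h => h.elim
      · rintro ⟨h, _⟩
        exact absurd h (not_lt.2 zero_le)
    · ext c
      constructor
      · exact fun h => h.elim
      · rintro ⟨α, h, _⟩
        exact absurd h.symm (by simp)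
  · rw [hC]
    exact ⟨_, dec_zero (lab y)⟩

theorem inv_succ (h : Computes nl lab) (y : Real2) (β : Ordinal.{0}) (hβ : Pre (fp (lab y)) β)
    (hi : Inv nl y (lab y) β) : Inv nl y (lab y) (β + 1) := by
  obtain ⟨f, hf⟩ := hi.code
  have hcol1 : col 1 (mrun (mac nl) y β) = setOf' y := by
    rw [hi.eq, col1_St]
  have hcol2 : col 2 (mrun (mac nl) y β) = Cf nl y β := rfl
  have hrow : row (mrun (mac nl) y β) = Mf nl y (lab y) β := by
    rw [hi.eq, row_St]
  have hL : execs nl (jn (Cf nl y β) (setOf' y)) = lab y β :=
    h.2 y β _ hβ (codesH_of_dec hf)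
  have hrun : mrun (mac nl) y (β + 1) = St (Nat.pair 9 0 ∈ lab y β) (setOf' y)
      (extC (Cf nl y β) (lab y β))
      (fun τ => newM (extC (Cf nl y β) (lab y β)) (Cf nl y β) (Mf nl y (lab y) β τ) τ)
      (fires (lab y β)) := by
    rw [mrun_succ, hcol1, hcol2, hL, newS, hcol1, hcol2, hrow]
  have hC : Cf nl y (β + 1) = extC (Cf nl y β) (lab y β) := by
    rw [Cf, hrun, col2_St]
  have hd := dec_ext hf
  refine ⟨?_, ?_⟩
  · rw [hrun, hC]
    apply St_congr
    · constructor
      · intro h9
        exact ⟨β, rfl, h9⟩
      · rintro ⟨α, h1, h2⟩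
        rwa [Order.add_one_inj.1 h1]
    · funext τ
      ext n
      have hcut : ∀ x, cutC (extC (Cf nl y β) (lab y β)) τ τ.length x ↔
          domC (extC (Cf nl y β) (lab y β)) x ∧ (if x = 0 then β else f (x - 1)) =
            cut (fp (lab y)) (gt τ) (β + 1) τ.length := fun x => cutC_iff hd τ τ.length x
      set γ := cut (fp (lab y)) (gt τ) (β + 1) τ.length with hγ
      have hlt : ∀ x, domC (extC (Cf nl y β) (lab y β)) (x + 1) → f x < β := by
        intro x hx
        have h1 : domC (Cf nl y β) x := by
          rw [extC, domC_mkC] at hx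
          rcases hx with hx | ⟨k, hk, hx⟩
          · omega
          · have : x = k := by omega
            rw [this]
            exact hx
        exact hf.bij.mapsTo h1
      constructor
      · rintro (⟨h1, h2⟩ | ⟨⟨x, h1⟩, h2⟩)
        · have h3 := ((hcut 0).1 h1).2
          simp only [if_true] at h3
          refine ⟨?_, ?_⟩
          · show γ < β + 1
            rw [← h3]
            exact lt_add_one β
          · show n ∈ Cf nl y γ
            rw [← h3]
            exact h2
        · have h3 := (hcut (x + 1)).1 h1
          have h4 : f x = γ := by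
            have := h3.2
            simpa using this
          have h5 : γ < β := by
            rw [← h4]
            exact hlt x h3.1
          have h6 : cut (fp (lab y)) (gt τ) β τ.length = γ :=
            cut_stable _ _ (β + 1) β _ h5 (lt_add_one β).le
          obtain ⟨_, h8⟩ := h2
          rw [h6] at h8
          exact ⟨h5.trans (lt_add_one β), h8⟩
      · rintro ⟨h1, h2⟩
        change γ < β + 1 at h1
        change n ∈ Cf nl y γ at h2
        rcases (Order.lt_add_one_iff.1 h1).eq_or_lt with h3 | h3
        · left
          refine ⟨(hcut 0).2 ⟨?_, ?_⟩, ?_⟩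
          · rw [extC, domC_mkC]
            exact Or.inl rfl
          · simp [h3]
          · rw [h3] at h2
            exact h2
        · right
          obtain ⟨x, hx, hfx⟩ := hf.bij.surjOn (show γ ∈ Set.Iio β from h3)
          refine ⟨⟨x, (hcut (x + 1)).2 ⟨?_, ?_⟩⟩, ?_⟩
          · rw [extC, domC_mkC]
            exact Or.inr ⟨x, rfl, hx⟩
          · simpa using hfx
          · have h6 : cut (fp (lab y)) (gt τ) β τ.length = γ :=
              cut_stable _ _ (β + 1) β _ h3 (lt_add_one β).le
            show _ < _ ∧ _
            rw [h6]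
            exact ⟨h3, h2⟩
    · ext c
      constructor
      · intro hc
        exact ⟨β, rfl, hc⟩
      · rintro ⟨α, h1, h2⟩
        rw [← Order.add_one_inj.1 h1] at h2
        exact h2
  · rw [hC]
    exact ⟨_, hd⟩

end Pool.Agent.Helper88.RT
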