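import Pool.Agent.Helper88.RT.InvLim

/-! # Module Rep: after the first loop the run repeats -/

set_option autoImplicit false

namespace Pool.Agent.Helper88.RT

open Pool.Agent.Helper25.EV Ordinal Encodable

variable (nl : List Instr) (y : Real2) (lab : Ordinal.{0} → Set ℕ)

section aux

variable {nl y lab}

private theorem limit_ne_add_one {ζ : Ordinal.{0}} (hζ : Order.IsSuccLimit ζ) (α : Ordinal.{0}) :
    ζ ≠ α + 1 := by
  rintro rfl
  rw [← Order.succ_eq_add_one] at hζ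
  exact Order.not_isSuccPrelimit_succ _ hζ.isSuccPrelimit

private theorem lt_add_one' (a : Ordinal.{0}) : a < a + 1 := by
  rw [← Order.succ_eq_add_one]
  exact Order.lt_succ a

private theorem limit_add_one_lt {ζ a : Ordinal.{0}} (hζ : Order.IsSuccLimit ζ) (h : a < ζ) :
    a + 1 < ζ := by
  rw [← Order.succ_eq_add_one]
  exact hζ.succ_lt h

/-- the inputs of the limit operator after the beginning of the loop are good -/
theorem gi_loop {ζ δ ξ : Ordinal.{0}} (hζ : Order.IsSuccLimit ζ) (hδ : Order.IsSuccLimit δ)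
    (hl : Loop (fp lab) ζ (ζ + δ)) (hi : ∀ β < ζ + δ, Inv nl y lab β) (h0 : 0 < ξ)
    (hmod : ξ % δ = 0)
    (ih : ∀ η < ξ, mrun (mac nl) y (ζ + η) = mrun (mac nl) y (ζ + η % δ)) :
    GI nl y lab ζ (lsup nl y (ζ + ξ)) := by
  have hδ0 : δ ≠ 0 := hδ.bot_lt.ne'
  have hr : ∀ η : Ordinal.{0}, ζ + η % δ < ζ + δ := fun η =>
    (add_lt_add_iff_left ζ).2 (Ordinal.mod_lt η hδ0)
  have hbig : ∀ γ, ζ ≤ γ → γ < ζ + ξ → ∃ η < ξ, γ = ζ + η := by
    intro γ h1 h2
    refine ⟨γ - ζ, (Ordinal.sub_lt_of_le h1).2 h2, (Ordinal.add_sub_cancel_of_le h1).symm⟩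
  have hζξ : ζ < ζ + ξ := by
    conv_lhs => rw [← add_zero ζ]
    exact (add_lt_add_iff_left ζ).2 h0
  refine ⟨?_, ?_, ?_⟩
  · have key : ∀ γ, ζ ≤ γ → γ < ζ + ξ → col 1 (mrun (mac nl) y γ) = setOf' y := by
      intro γ h1 h2
      obtain ⟨η, hη, rfl⟩ := hbig γ h1 h2
      rw [ih η hη]
      exact (hi _ (hr η)).col1
    ext n
    rw [mem_col_lsup]
    constructor
    · intro h
      obtain ⟨γ, h1, h2, h3⟩ := h ζ hζξ
      rwa [key γ h2 h1] at h3
    · intro h a ha
      refine ⟨max a ζ, max_lt ha hζξ, le_max_left _ _, ?_⟩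
      rw [key _ (le_max_right _ _) (max_lt ha hζξ)]
      exact h
  · intro c
    rw [mem_col_lsup]
    constructor
    · intro h hc
      obtain ⟨γ, h1, h2, h3⟩ := h ζ hζξ
      obtain ⟨η, hη, rfl⟩ := hbig γ h2 h1
      rw [ih η hη, (hi _ (hr η)).col4] at h3
      obtain ⟨α, hα, hcα⟩ := h3
      have h4 : ζ ≤ α := by
        have h5 : ζ ≤ ζ + η % δ := le_self_add
        rw [hα] at h5
        rcases h5.eq_or_lt with h6 | h6
        · exact absurd h6 (limit_ne_add_one hζ α)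
        · rw [← Order.succ_eq_add_one] at h6
          exact Order.lt_succ_iff.1 h6
      have h7 : α < ζ + δ := by
        refine lt_trans ?_ (hr η)
        rw [hα]
        exact lt_add_one' α
      exact hl.sil c hc α h4 h7 hcα
    · intro hc a ha
      have hc' : c ∉ Zc (fp lab) (ζ + δ) := by
        rw [← hl.same]
        exact hc
      obtain ⟨η, hη1, hη2⟩ : ∃ η < ξ, a ≤ ζ + η :=
        ⟨a - ζ, Ordinal.sub_lt_of_lt_add ha h0, Ordinal.le_add_sub a ζ⟩
      obtain ⟨α, h1, h2, h3⟩ := fire_of_not_Zc hc' (ζ + η % δ) (hr η)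
      have h4 : ζ ≤ α := le_trans le_self_add h1
      have h5 : α = ζ + (α - ζ) := (Ordinal.add_sub_cancel_of_le h4).symm
      have h6 : α - ζ < δ := (Ordinal.sub_lt_of_le h4).2 h2
      have h7 : η % δ ≤ α - ζ := by
        rw [h5] at h1
        exact (add_le_add_iff_left ζ).1 h1
      have h8 : (α - ζ) + 1 < δ := limit_add_one_lt hδ h6
      have h9 : δ * (η / δ) + ((α - ζ) + 1) < ξ := by
        have e1 : ξ = δ * (ξ / δ) := by
          conv_lhs => rw [← Ordinal.div_add_mod ξ δ, hmod, add_zero]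
        have e2 : η / δ < ξ / δ := by
          rw [Ordinal.div_lt hδ0, ← e1]
          exact hη1
        calc δ * (η / δ) + ((α - ζ) + 1) < δ * (η / δ) + δ := (add_lt_add_iff_left _).2 h8
          _ = δ * Order.succ (η / δ) := by rw [Order.succ_eq_add_one, mul_add_one]
          _ ≤ δ * (ξ / δ) := mul_le_mul_right (Order.succ_le_of_lt e2) δ
          _ = ξ := e1.symm
      have h10 : ζ + (δ * (η / δ) + ((α - ζ) + 1)) < ζ + ξ := (add_lt_add_iff_left ζ).2 h9
      refine ⟨ζ + (δ * (η / δ) + ((α - ζ) + 1)), h10, ?_, ?_⟩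
      · refine hη2.trans ((add_le_add_iff_left ζ).2 ?_)
        conv_lhs => rw [← Ordinal.div_add_mod η δ]
        refine (add_le_add_iff_left _).2 (h7.trans ?_)
        exact (lt_add_one' _).le
      · rw [ih _ h9, Ordinal.mul_add_mod_self, Ordinal.mod_eq_of_lt h8]
        have h11 : ζ + ((α - ζ) + 1) < ζ + δ := (add_lt_add_iff_left ζ).2 h8
        rw [(hi _ h11).col4]
        refine ⟨α, ?_, h3⟩
        rw [← add_assoc, ← h5]
  · intro τ hτ
    have key : ∀ γ, ζ ≤ γ → γ < ζ + ξ →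
        row (mrun (mac nl) y γ) τ = Cf nl y (cut (fp lab) (gt τ) ζ τ.length) := by
      intro γ h1 h2
      obtain ⟨η, hη, rfl⟩ := hbig γ h1 h2
      have h3 := cut_mid hl (gt τ) τ.length hτ (ζ + η % δ) le_self_add (hr η).le
      rw [ih η hη, (hi _ (hr η)).row, Mf_of_lt, h3]
      rw [h3]
      exact hτ.trans_le le_self_add
    ext n
    rw [mem_row_lsup]
    constructor
    · intro h
      obtain ⟨γ, h1, h2, h3⟩ := h ζ hζξ
      rwa [key γ h2 h1] at h3
    · intro h a ha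
      refine ⟨max a ζ, max_lt ha hζξ, le_max_left _ _, ?_⟩
      rw [key _ (le_max_right _ _) (max_lt ha hζξ)]
      exact h

/-- the limit superiors at corresponding stages agree -/
theorem lsup_shift {ζ δ q ρ : Ordinal.{0}} (hρδ : ρ < δ) (hρ0 : 0 < ρ)
    (ih : ∀ η < δ * q + ρ, mrun (mac nl) y (ζ + η) = mrun (mac nl) y (ζ + η % δ)) :
    lsup nl y (ζ + (δ * q + ρ)) = lsup nl y (ζ + ρ) := by
  have key : ∀ ρ' < ρ, mrun (mac nl) y (ζ + (δ * q + ρ')) = mrun (mac nl) y (ζ + ρ') := by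
    intro ρ' h
    rw [ih _ ((add_lt_add_iff_left _).2 h), Ordinal.mul_add_mod_self,
      Ordinal.mod_eq_of_lt (h.trans hρδ)]
  ext n
  constructor
  · intro h a ha
    have h1 : a - ζ < ρ := Ordinal.sub_lt_of_lt_add ha hρ0
    obtain ⟨γ, h2, h3, h4⟩ := h (ζ + (δ * q + (a - ζ)))
      ((add_lt_add_iff_left ζ).2 ((add_lt_add_iff_left _).2 h1))
    have h5 : ζ + δ * q ≤ γ := by
      refine le_trans ?_ h3
      rw [← add_assoc]
      exact le_self_add
    obtain ⟨ρ', hρ'⟩ : ∃ ρ', γ = ζ + (δ * q + ρ') :=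
      ⟨γ - (ζ + δ * q), by rw [← add_assoc, Ordinal.add_sub_cancel_of_le h5]⟩
    rw [hρ'] at h2 h3 h4
    have h6 : ρ' < ρ := (add_lt_add_iff_left _).1 ((add_lt_add_iff_left ζ).1 h2)
    have h7 : a - ζ ≤ ρ' := (add_le_add_iff_left _).1 ((add_le_add_iff_left ζ).1 h3)
    rw [key ρ' h6] at h4
    exact ⟨ζ + ρ', (add_lt_add_iff_left ζ).2 h6, (Ordinal.le_add_sub a ζ).trans
      ((add_le_add_iff_left ζ).2 h7), h4⟩
  · intro h a ha
    rw [← add_assoc] at ha
    have h1 : a - (ζ + δ * q) < ρ := Ordinal.sub_lt_of_lt_add ha hρ0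
    obtain ⟨γ, h2, h3, h4⟩ := h (ζ + (a - (ζ + δ * q))) ((add_lt_add_iff_left ζ).2 h1)
    have h5 : ζ ≤ γ := le_trans le_self_add h3
    obtain ⟨ρ', hρ'⟩ : ∃ ρ', γ = ζ + ρ' := ⟨γ - ζ, (Ordinal.add_sub_cancel_of_le h5).symm⟩
    rw [hρ'] at h2 h3 h4
    have h6 : ρ' < ρ := (add_lt_add_iff_left ζ).1 h2
    have h7 : a - (ζ + δ * q) ≤ ρ' := (add_le_add_iff_left ζ).1 h3
    rw [← key ρ' h6] at h4
    refine ⟨ζ + (δ * q + ρ'), (add_lt_add_iff_left ζ).2 ((add_lt_add_iff_left _).2 h6), ?_, h4⟩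
    rw [← add_assoc]
    exact (Ordinal.le_add_sub a (ζ + δ * q)).trans ((add_le_add_iff_left _).2 h7)

end aux

theorem rep {ζ σ : Ordinal.{0}} (h : First (fp lab) ζ σ) (hclock : ∀ α < σ, 0 ∈ fp lab α)
    (hi : ∀ β < σ, Inv nl y lab β) (α : Ordinal.{0}) (hα : ζ ≤ α) :
    mrun (mac nl) y α = mrun (mac nl) y (ζ + (α - ζ) % (σ - ζ)) := by
  have hζ : Order.IsSuccLimit ζ := h.loop.lim1
  have hζσ : ζ < σ := h.loop.lt
  obtain ⟨δ, hδσ⟩ : ∃ δ, δ = σ - ζ := ⟨_, rfl⟩
  have hδ : Order.IsSuccLimit δ := by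
    rw [hδσ]
    exact Ordinal.isSuccLimit_sub h.loop.lim2.isSuccPrelimit hζσ
  have hσ : σ = ζ + δ := by
    rw [hδσ, Ordinal.add_sub_cancel_of_le hζσ.le]
  have hl : Loop (fp lab) ζ (ζ + δ) := hσ ▸ h.loop
  have hi' : ∀ β < ζ + δ, Inv nl y lab β := hσ ▸ hi
  have hpre : Pre (fp lab) ζ := (h.pre_iff ζ).2 hζσ
  have hδ0 : δ ≠ 0 := hδ.bot_lt.ne'
  have key : ∀ ξ : Ordinal.{0}, mrun (mac nl) y (ζ + ξ) = mrun (mac nl) y (ζ + ξ % δ) := by
    intro ξ
    induction ξ using WellFoundedLT.induction with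
    | ind ξ ih =>
      rcases lt_or_ge ξ δ with hlt | hge
      · rw [Ordinal.mod_eq_of_lt hlt]
      have hξ : δ * (ξ / δ) + ξ % δ = ξ := Ordinal.div_add_mod ξ δ
      have hρδ : ξ % δ < δ := Ordinal.mod_lt ξ hδ0
      have hξ0 : 0 < ξ := lt_of_lt_of_le hδ.bot_lt hge
      rcases Ordinal.zero_or_succ_or_isSuccLimit (ξ % δ) with h0 | hs | hlim
      · -- a multiple of `δ`
        have hq0 : 0 < ξ / δ := by
          rw [pos_iff_ne_zero]
          intro h1
          rw [h1, h0, mul_zero, add_zero] at hξ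
          exact hξ0.ne hξ
        have hξl : Order.IsSuccLimit ξ := by
          rw [← hξ, h0, add_zero]
          exact Ordinal.isSuccLimit_mul_left hδ hq0
        rw [h0, add_zero, mrun_limit nl y _ (Ordinal.isSuccLimit_add ζ hξl),
          mrun_limit nl y ζ hζ]
        refine lim_congr nl y lab hζ hpre (fun α hα => hclock α (hα.trans hζσ))
          (fun β hβ => hi β (hβ.trans hζσ)) ?_
          (gi_of_inv nl y lab hζ (fun β hβ => hi β (hβ.trans hζσ)))
        exact gi_loop hζ hδ hl hi' hξ0 h0 ih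
      · obtain ⟨ρ, hρ⟩ := hs
        rw [Order.succ_eq_add_one] at hρ
        have hρ1 : ρ < δ := by
          refine lt_trans (lt_add_one' ρ) ?_
          rw [hρ]
          exact hρδ
        have hξ' : ξ = (δ * (ξ / δ) + ρ) + 1 := by
          rw [add_assoc, hρ, hξ]
        have hlt : δ * (ξ / δ) + ρ < ξ := by
          conv_rhs => rw [hξ']
          exact lt_add_one' _
        have h1 := ih _ hlt
        rw [Ordinal.mul_add_mod_self, Ordinal.mod_eq_of_lt hρ1] at h1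
        rw [← hρ]
        conv_lhs => rw [hξ']
        rw [← add_assoc ζ _ 1, ← add_assoc ζ ρ 1, mrun_succ, mrun_succ, h1]
      · have hρ0 : 0 < ξ % δ := hlim.bot_lt
        have hξl : Order.IsSuccLimit ξ := by
          rw [← hξ]
          exact Ordinal.isSuccLimit_add _ hlim
        rw [mrun_limit nl y _ (Ordinal.isSuccLimit_add ζ hξl),
          mrun_limit nl y _ (Ordinal.isSuccLimit_add ζ hlim)]
        congr 1
        have h2 := lsup_shift (nl := nl) (y := y) (ζ := ζ) (q := ξ / δ) hρδ hρ0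
          (by rw [hξ]; exact ih)
        rw [hξ] at h2
        exact h2
  have h1 := key (α - ζ)
  rw [Ordinal.add_sub_cancel_of_le hα] at h1
  rw [← hδσ]
  exact h1

end Pool.Agent.Helper88.RT
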