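import Pool.Agent.Helper88.RT.OpAr
import Pool.Agent.Helper88.RT.InvMain
import Pool.Agent.Helper88.RT.Rep

/-! # Assembly of chapter RT -/

set_option autoImplicit false

namespace Pool.Agent.Helper88.RT

open Pool.Agent.Helper25.EV Ordinal Encodable

theorem inv_all (nl : List Instr) (lab : Real2 → Ordinal.{0} → Set ℕ) (h : Computes nl lab)
    (hclock : ∀ y β, Pre (fun γ => fires (lab y γ)) β → Nat.pair 0 0 ∈ lab y β) (y : Real2)
    (β : Ordinal.{0}) : Pre (fp (lab y)) β → Inv nl y (lab y) β := by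
  induction β using Ordinal.limitRecOn with
  | zero => exact fun _ => inv_zero nl lab y
  | add_one β ih =>
    intro hβ
    have h1 : Pre (fp (lab y)) β := fun η δ hl => (lt_add_one β).trans (hβ η δ hl)
    exact inv_succ nl lab h y β h1 (ih h1)
  | limit β hl ih =>
    intro hβ
    have h1 : ∀ α < β, Pre (fp (lab y)) α := fun α hα η δ hl => hα.trans (hβ η δ hl)
    exact inv_limit nl y (lab y) hl hβ (fun α hα => hclock y α (h1 α hα))
      (fun α hα => ih α hα (h1 α hα))

theorem RT (nl : List Instr) (lab : Real2 → Ordinal.{0} → Set ℕ) (h : Computes nl lab)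
    (hclock : ∀ y β, Pre (fun γ => fires (lab y γ)) β → Nat.pair 0 0 ∈ lab y β) :
    ∃ M : Macro, Tracks M lab := by
  refine ⟨mac nl, mac_ok nl h.1, ?_⟩
  intro y
  obtain ⟨ζ, σ, hF, -⟩ := exists_first (fp (lab y))
  have hpre : ∀ β, Pre (fp (lab y)) β ↔ β < σ := hF.pre_iff
  have hinv : ∀ β < σ, Inv nl y (lab y) β := fun β hβ =>
    inv_all nl lab h hclock y β ((hpre β).2 hβ)
  have hcl : ∀ α < σ, 0 ∈ fp (lab y) α := fun α hα => hclock y α ((hpre α).2 hα)
  have hal : ∀ β < σ, 0 ∈ mrun (mac nl) y β → ∃ α, Pre (fp (lab y)) α ∧ Nat.pair 9 0 ∈ lab y α := by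
    intro β hβ h0
    rw [(hinv β hβ).eq, zero_mem_St] at h0
    obtain ⟨α, h1, h2⟩ := h0
    refine ⟨α, (hpre α).2 ?_, h2⟩
    rw [h1] at hβ
    exact (lt_add_one α).trans hβ
  constructor
  · rintro ⟨t, ht⟩
    rcases lt_or_ge t σ with htσ | htσ
    · exact hal t htσ ht
    · have hζσ : ζ < σ := hF.loop.lt
      rw [rep nl y (lab y) hF hcl hinv t (hζσ.le.trans htσ)] at ht
      refine hal _ ?_ ht
      have h1 : (t - ζ) % (σ - ζ) < σ - ζ := by
        apply Ordinal.mod_lt
        exact Ordinal.sub_ne_zero_iff_lt.2 hζσ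
      calc ζ + (t - ζ) % (σ - ζ) < ζ + (σ - ζ) := by
            exact (add_lt_add_iff_left ζ).2 h1
        _ = σ := Ordinal.add_sub_cancel_of_le hζσ.le
  · rintro ⟨β, hβ, h9⟩
    have h1 : β < σ := (hpre β).1 hβ
    have h2 : β + 1 < σ := by
      have := hF.loop.lim2.succ_lt h1
      rwa [Order.succ_eq_add_one] at this
    refine ⟨β + 1, ?_⟩
    rw [(hinv _ h2).eq, zero_mem_St]
    exact ⟨β, rfl, h9⟩

end Pool.Agent.Helper88.RT
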