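import Pool.Agent.Helper88.RT.StL

/-! # Module StAr: states and codes are arithmetical in their parts -/

set_option autoImplicit false

namespace Pool.Agent.Helper88.RT

open Pool.Agent.Helper25.EV Ordinal Encodable

/-- first component -/
private theorem pr1 : Primrec fun n : ℕ => (Nat.unpair n).1 := Primrec.fst.comp Primrec.unpair

/-- second component -/
private theorem pr2 : Primrec fun n : ℕ => (Nat.unpair n).2 := Primrec.snd.comp Primrec.unpair

private theorem ppEq (t : ℕ) : PrimrecPred fun n : ℕ => (Nat.unpair n).1 = t :=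
  Primrec.eq.comp pr1 (Primrec.const t)

theorem arOp_St {al : Set ℕ → Prop} {Y C Fl : Set ℕ → Set ℕ} {M : Set ℕ → List Bool → Set ℕ}
    (hal : Ar fun X (_ : ℕ) => al X) (hY : ArOp Y) (hC : ArOp C) (hFl : ArOp Fl)
    (hM : Ar fun X (p : List Bool × ℕ) => p.2 ∈ M X p.1) :
    ArOp fun X => St (al X) (Y X) (C X) (M X) (Fl X) := by
  apply ArOp.of
  have h0 : Ar fun (_ : Set ℕ) (m : ℕ) => m = 0 :=
    Ar.pred (Primrec.eq.comp Primrec.id (Primrec.const 0))
  have hM' : Ar fun X (m : ℕ) => ∃ τ : List Bool, (Nat.unpair (Nat.unpair m).2).1 = encode τ ∧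
      (Nat.unpair (Nat.unpair m).2).2 ∈ M X τ := by
    refine Ar.ex (P := fun X (m : ℕ) (τ : List Bool) =>
      (Nat.unpair (Nat.unpair m).2).1 = encode τ ∧ (Nat.unpair (Nat.unpair m).2).2 ∈ M X τ) ?_
    have q1 : Primrec fun p : ℕ × List Bool => (Nat.unpair (Nat.unpair p.1).2).1 :=
      pr1.comp (pr2.comp Primrec.fst)
    have q2 : Primrec fun p : ℕ × List Bool => (Nat.unpair (Nat.unpair p.1).2).2 :=
      pr2.comp (pr2.comp Primrec.fst)
    have q3 : Primrec fun p : ℕ × List Bool => encode p.2 := Primrec.encode.comp Primrec.snd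
    exact Ar.and (Ar.pred (Primrec.eq.comp q1 q3))
      (Ar.comp hM (f := fun p : ℕ × List Bool => (p.2, (Nat.unpair (Nat.unpair p.1).2).2))
        (Primrec.snd.pair q2))
  refine Ar.congr (Ar.or (Ar.and h0 hal) (Ar.or (Ar.and (Ar.pred (ppEq 1))
    (Ar.comp (ArOp.toAr hY) pr2)) (Ar.or (Ar.and (Ar.pred (ppEq 2))
    (Ar.comp (ArOp.toAr hC) pr2)) (Ar.or (Ar.and (Ar.pred (ppEq 3)) hM')
    (Ar.and (Ar.pred (ppEq 4)) (Ar.comp (ArOp.toAr hFl) pr2)))))) ?_
  intro X m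
  exact Iff.rfl

theorem arOp_mkC {D : Set ℕ → ℕ → Prop} {L B : Set ℕ → ℕ → ℕ → Prop}
    (hD : Ar fun X (k : ℕ) => D X k) (hL : Ar fun X (p : ℕ × ℕ) => L X p.1 p.2)
    (hB : Ar fun X (p : ℕ × ℕ) => B X p.1 p.2) : ArOp fun X => mkC (D X) (L X) (B X) := by
  apply ArOp.of
  have hq : Primrec fun m : ℕ =>
      ((Nat.unpair (Nat.unpair m).2).1, (Nat.unpair (Nat.unpair m).2).2) :=
    (pr1.comp pr2).pair (pr2.comp pr2)
  refine Ar.congr (Ar.or (Ar.and (Ar.pred (ppEq 0)) (Ar.comp hD pr2))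
    (Ar.or (Ar.and (Ar.pred (ppEq 1)) (Ar.comp hL hq))
    (Ar.and (Ar.pred (ppEq 2)) (Ar.comp hB hq)))) ?_
  intro X m
  exact Iff.rfl

theorem arOp_col (t : ℕ) : ArOp (col t) :=
  ArN.mem (fun n => Nat.pair t n) (Primrec₂.natPair.comp (Primrec.const t) Primrec.id)

theorem ar_row : Ar fun X (p : List Bool × ℕ) => p.2 ∈ row X p.1 :=
  Ar.mem (f := fun p : List Bool × ℕ => Nat.pair 3 (Nat.pair (encode p.1) p.2))
    (Primrec₂.natPair.comp (Primrec.const 3)
      (Primrec₂.natPair.comp (Primrec.encode.comp Primrec.fst) Primrec.snd))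

theorem arOp_fires {L : Set ℕ → Set ℕ} (hL : ArOp L) : ArOp fun X => fires (L X) := by
  apply ArOp.of
  exact Ar.comp (ArOp.toAr hL) (f := fun n : ℕ => Nat.pair 0 n)
    (Primrec₂.natPair.comp (Primrec.const 0) Primrec.id)

end Pool.Agent.Helper88.RT

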