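import Pool.Agent.Helper25.EV.Fire

/-!
# Calculus of arithmetical predicates and instruction lists
-/

set_option autoImplicit false

namespace Pool.Agent.Helper88.RT

open Pool.Agent.Helper25.EV Ordinal Encodable

/-! ### `ArN` -/

theorem ArN.congr {P Q : Set ℕ → ℕ → Prop} (hP : ArN P) (h : ∀ X n, P X n ↔ Q X n) : ArN Q := by
  have : P = Q := by
    funext X n
    exact propext (h X n)
  rwa [← this]

theorem ArN.comp {P : Set ℕ → ℕ → Prop} (hP : ArN P) :
    ∀ f : ℕ → ℕ, Primrec f → ArN fun X n => P X (f n) := by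
  induction hP with
  | prim g hg => exact fun f hf => ArN.prim (fun n => g (f n)) (hg.comp hf)
  | mem g hg => exact fun f hf => ArN.mem (fun n => g (f n)) (hg.comp hf)
  | neg _ ih => exact fun f hf => ArN.neg (ih f hf)
  | and _ _ ih1 ih2 => exact fun f hf => ArN.and (ih1 f hf) (ih2 f hf)
  | @ex P _ ih =>
    intro f hf
    have h1 : Primrec fun n : ℕ => Nat.pair (f n.unpair.1) n.unpair.2 :=
      Primrec₂.natPair.comp (hf.comp (Primrec.fst.comp Primrec.unpair))
        (Primrec.snd.comp Primrec.unpair)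
    refine ArN.congr (ArN.ex (ih _ h1)) ?_
    intro X n
    simp

theorem ArN.subst {P : Set ℕ → ℕ → Prop} (hP : ArN P) {F : Set ℕ → Set ℕ} (hF : ArOp F) :
    ArN fun X n => P (F X) n := by
  induction hP with
  | prim g hg => exact ArN.prim g hg
  | mem g hg => exact ArN.comp hF g hg
  | neg _ ih => exact ArN.neg ih
  | and _ _ ih1 ih2 => exact ArN.and ih1 ih2
  | ex _ ih => exact ArN.ex ih

theorem ArOp.comp {F G : Set ℕ → Set ℕ} (hF : ArOp F) (hG : ArOp G) :
    ArOp fun X => F (G X) := ArN.subst hF hG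

/-! ### `Ar` -/

section

variable {α β γ : Type} [Primcodable α] [Primcodable β] [Primcodable γ]

theorem Ar.congr {P Q : Set ℕ → α → Prop} (hP : Ar P) (h : ∀ X a, P X a ↔ Q X a) : Ar Q := by
  obtain ⟨R, hR, h'⟩ := hP
  exact ⟨R, hR, fun X a => (h X a).symm.trans (h' X a)⟩

theorem Ar.neg {P : Set ℕ → α → Prop} (hP : Ar P) : Ar fun X a => ¬ P X a := by
  obtain ⟨R, hR, h'⟩ := hP
  exact ⟨_, ArN.neg hR, fun X a => not_congr (h' X a)⟩

theorem Ar.and {P Q : Set ℕ → α → Prop} (hP : Ar P) (hQ : Ar Q) : Ar fun X a => P X a ∧ Q X a := by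
  obtain ⟨R, hR, h'⟩ := hP
  obtain ⟨S, hS, h''⟩ := hQ
  exact ⟨_, ArN.and hR hS, fun X a => and_congr (h' X a) (h'' X a)⟩

theorem Ar.or {P Q : Set ℕ → α → Prop} (hP : Ar P) (hQ : Ar Q) : Ar fun X a => P X a ∨ Q X a := by
  refine Ar.congr (Ar.neg (Ar.and (Ar.neg hP) (Ar.neg hQ))) ?_
  intro X a
  tauto

theorem Ar.imp {P Q : Set ℕ → α → Prop} (hP : Ar P) (hQ : Ar Q) : Ar fun X a => P X a → Q X a := by
  refine Ar.congr (Ar.or (Ar.neg hP) hQ) ?_
  intro X a
  tauto

theorem Ar.iff {P Q : Set ℕ → α → Prop} (hP : Ar P) (hQ : Ar Q) : Ar fun X a => P X a ↔ Q X a := by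
  refine Ar.congr (Ar.and (Ar.imp hP hQ) (Ar.imp hQ hP)) ?_
  intro X a
  tauto

theorem primrec_dec {f : α → ℕ} (hf : Primrec f) :
    Primrec fun n : ℕ => ((decode n : Option α).map f).getD 0 := by
  have h1 : Primrec fun n : ℕ => (decode n : Option α) := Primrec.decode
  have h2 : Primrec fun n : ℕ => (decode n : Option α).map f :=
    Primrec.option_map h1 ((hf.comp Primrec.snd).to₂)
  exact Primrec.option_getD.comp h2 (Primrec.const 0)

theorem Ar.mem {f : α → ℕ} (hf : Primrec f) : Ar fun X a => f a ∈ X := by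
  refine ⟨_, ArN.mem _ (primrec_dec hf), ?_⟩
  intro X a
  simp

theorem Ar.comp {P : Set ℕ → β → Prop} (hP : Ar P) {f : α → β} (hf : Primrec f) :
    Ar fun X a => P X (f a) := by
  obtain ⟨R, hR, h'⟩ := hP
  refine ⟨_, ArN.comp hR _ (primrec_dec (Primrec.encode.comp hf)), ?_⟩
  intro X a
  refine (h' X (f a)).trans ?_
  simp

theorem Ar.prim {f : α → Bool} (hf : Primrec f) : Ar fun (_ : Set ℕ) a => f a = true := by
  have h1 : Ar (fun (_ : Set ℕ) (b : Bool) => b = true) := by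
    refine ⟨_, ArN.prim (fun n => decide (n = 1)) ?_, ?_⟩
    · exact (Primrec.eq.comp Primrec.id (Primrec.const 1) :
        PrimrecPred fun n : ℕ => n = 1).decide
    · intro X b
      cases b <;> simp
  exact Ar.comp h1 hf

theorem Ar.pred {p : α → Prop} (hp : PrimrecPred p) : Ar fun (_ : Set ℕ) a => p a := by
  obtain ⟨hd, h⟩ := hp
  refine Ar.congr (Ar.prim h) ?_
  intro X a
  simp

theorem Ar.ex {P : Set ℕ → α → β → Prop} (hP : Ar fun X (p : α × β) => P X p.1 p.2) :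
    Ar fun X a => ∃ b, P X a b := by
  obtain ⟨R, hR, h'⟩ := hP
  -- restrict to codes of elements of `β`
  have h1 : ArN fun (_ : Set ℕ) (n : ℕ) => (decode n.unpair.2 : Option β).isSome = true := by
    refine ArN.prim (fun n : ℕ => (decode n.unpair.2 : Option β).isSome) ?_
    exact Primrec.option_isSome.comp (Primrec.decode.comp (Primrec.snd.comp Primrec.unpair))
  have h2 : Primrec fun n : ℕ => Nat.pair n.unpair.1
      (((decode n.unpair.2 : Option β).map (fun b => encode b)).getD 0) := by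
    refine Primrec₂.natPair.comp (Primrec.fst.comp Primrec.unpair) ?_
    exact (primrec_dec (f := fun b : β => encode b) Primrec.encode).comp
      (Primrec.snd.comp Primrec.unpair)
  refine ⟨_, ArN.ex (ArN.and h1 (ArN.comp hR _ h2)), ?_⟩
  intro X a
  constructor
  · rintro ⟨b, hb⟩
    refine ⟨encode b, ?_, ?_⟩
    · simp
    · have := (h' X (a, b)).1 hb
      simpa using this
  · rintro ⟨m, hm1, hm2⟩
    simp only [Nat.unpair_pair] at hm1 hm2
    obtain ⟨b, hb⟩ := Option.isSome_iff_exists.1 hm1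
    refine ⟨b, (h' X (a, b)).2 ?_⟩
    rw [hb] at hm2
    simpa using hm2

theorem Ar.all {P : Set ℕ → α → β → Prop} (hP : Ar fun X (p : α × β) => P X p.1 p.2) :
    Ar fun X a => ∀ b, P X a b := by
  refine Ar.congr (Ar.neg (Ar.ex (P := fun X a b => ¬ P X a b) (Ar.neg hP))) ?_
  intro X a
  push Not
  exact Iff.rfl

theorem Ar.subst {P : Set ℕ → α → Prop} (hP : Ar P) {F : Set ℕ → Set ℕ} (hF : ArOp F) :
    Ar fun X a => P (F X) a := by
  obtain ⟨R, hR, h'⟩ := hP
  exact ⟨_, ArN.subst hR hF, fun X a => h' (F X) a⟩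

/-- Substitution of a family of arithmetical sets. -/
theorem Ar.substP {P : Set ℕ → α → Prop} (hP : Ar P) {F : Set ℕ → β → Set ℕ}
    (hF : Ar fun X (p : β × ℕ) => p.2 ∈ F X p.1) :
    Ar fun X (q : β × α) => P (F X q.1) q.2 := by
  obtain ⟨R, hR, h'⟩ := hP
  have key : ∀ R : Set ℕ → ℕ → Prop, ArN R →
      Ar fun X (q : β × ℕ) => R (F X q.1) q.2 := by
    intro R hR
    induction hR with
    | prim g hg => exact Ar.prim (hg.comp Primrec.snd)
    | mem g hg =>
      exact Ar.comp hF (f := fun q : β × ℕ => (q.1, g q.2))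
        (Primrec.fst.pair (hg.comp Primrec.snd))
    | neg _ ih => exact Ar.neg ih
    | and _ _ ih1 ih2 => exact Ar.and ih1 ih2
    | @ex P _ ih =>
      refine Ar.ex (P := fun X (q : β × ℕ) m => P (F X q.1) (Nat.pair q.2 m)) ?_
      exact Ar.comp ih (f := fun r : (β × ℕ) × ℕ => (r.1.1, Nat.pair r.1.2 r.2))
        ((Primrec.fst.comp Primrec.fst).pair
          (Primrec₂.natPair.comp (Primrec.snd.comp Primrec.fst) Primrec.snd))
  refine Ar.congr (Ar.comp (key R hR) (f := fun q : β × α => (q.1, encode q.2))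
    (Primrec.fst.pair (Primrec.encode.comp Primrec.snd))) ?_
  intro X q
  exact (h' (F X q.1) q.2).symm

end

theorem ArOp.of {F : Set ℕ → Set ℕ} (h : Ar fun X (n : ℕ) => n ∈ F X) : ArOp F := by
  obtain ⟨R, hR, h'⟩ := h
  exact ArN.congr hR (fun X n => (h' X n).symm)

theorem ArOp.toAr {F : Set ℕ → Set ℕ} (h : ArOp F) : Ar fun X (n : ℕ) => n ∈ F X :=
  ⟨_, h, fun _ _ => Iff.rfl⟩

/-! ### Instruction lists acting on the even part -/

/-- the even part -/
def ev (Z : Set ℕ) : Set ℕ := {n | 2 * n ∈ Z}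

/-- the odd part -/
def od (Z : Set ℕ) : Set ℕ := {n | 2 * n + 1 ∈ Z}

@[simp] theorem ev_jn (A B : Set ℕ) : ev (jn A B) = A := by
  ext n
  constructor
  · rintro (⟨m, hm, h⟩ | ⟨m, hm, h⟩)
    · have : n = m := by omega
      rwa [this]
    · omega
  · intro h
    exact Or.inl ⟨n, h, rfl⟩

@[simp] theorem od_jn (A B : Set ℕ) : od (jn A B) = B := by
  ext n
  constructor
  · rintro (⟨m, hm, h⟩ | ⟨m, hm, h⟩)
    · omega
    · have : n = m := by omega
      rwa [this]
  · intro h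
    exact Or.inr ⟨n, h, rfl⟩

theorem jn_ev_od (Z : Set ℕ) : jn (ev Z) (od Z) = Z := by
  ext n
  constructor
  · rintro (⟨m, hm, h⟩ | ⟨m, hm, h⟩)
    · rw [h]; exact hm
    · rw [h]; exact hm
  · intro h
    rcases Nat.even_or_odd' n with ⟨m, hm | hm⟩
    · exact Or.inl ⟨m, by rw [hm] at h; exact h, hm⟩
    · exact Or.inr ⟨m, by rw [hm] at h; exact h, hm⟩

theorem arOp_ev : ArOp ev := ArN.mem (fun n => 2 * n)
  (Primrec.nat_mul.comp (Primrec.const 2) Primrec.id)

theorem arOp_od : ArOp od := ArN.mem (fun n => 2 * n + 1)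
  (Primrec.succ.comp (Primrec.nat_mul.comp (Primrec.const 2) Primrec.id))

theorem arOp_jn {F G : Set ℕ → Set ℕ} (hF : ArOp F) (hG : ArOp G) :
    ArOp fun X => jn (F X) (G X) := by
  apply ArOp.of
  have hdiv : Primrec fun n : ℕ => n / 2 := Primrec.nat_div.comp Primrec.id (Primrec.const 2)
  have hmod : PrimrecPred fun n : ℕ => n % 2 = 0 :=
    Primrec.eq.comp (Primrec.nat_mod.comp Primrec.id (Primrec.const 2)) (Primrec.const 0)
  refine Ar.congr (Ar.or (Ar.and (Ar.pred hmod) (Ar.comp (ArOp.toAr hF) hdiv))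
    (Ar.and (Ar.neg (Ar.pred hmod)) (Ar.comp (ArOp.toAr hG) hdiv))) ?_
  intro X n
  constructor
  · rintro (⟨h1, h2⟩ | ⟨h1, h2⟩)
    · exact Or.inl ⟨n / 2, h2, by omega⟩
    · exact Or.inr ⟨n / 2, h2, by omega⟩
  · rintro (⟨m, hm, h⟩ | ⟨m, hm, h⟩)
    · left
      have : n / 2 = m := by omega
      exact ⟨by omega, by rw [this]; exact hm⟩
    · right
      have : n / 2 = m := by omega
      exact ⟨by omega, by rw [this]; exact hm⟩

/-- an instruction acting on the even part -/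
def liftI : Instr → Instr
  | .ar F => .ar fun Z => jn (F (ev Z)) (od Z)
  | .cl G => .cl fun Z => jn (G (ev Z)) ∅

theorem clS_zero (G : Set ℕ → Set ℕ) (X : Set ℕ) : clS G X 0 = X := by
  unfold clS
  rw [Ordinal.limitRecOn_zero]

theorem clS_succ (G : Set ℕ → Set ℕ) (X : Set ℕ) (α : Ordinal.{0}) :
    clS G X (α + 1) = clS G X α ∪ G (clS G X α) := by
  unfold clS
  rw [Ordinal.limitRecOn_add_one]

theorem clS_limit (G : Set ℕ → Set ℕ) (X : Set ℕ) (l : Ordinal.{0}) (hl : Order.IsSuccLimit l) :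
    clS G X l = {n | ∃ β, ∃ _ : β < l, n ∈ clS G X β} := by
  have h1 : clS G X l = Ordinal.limitRecOn l X (fun _ Y => Y ∪ G Y) (fun l _ f =>
    {n | ∃ (β : Ordinal.{0}) (h : β < l), n ∈ f β h}) := rfl
  rw [h1, Ordinal.limitRecOn_limit _ _ _ _ hl]
  rfl

theorem clS_lift (G : Set ℕ → Set ℕ) (A B : Set ℕ) (α : Ordinal.{0}) :
    clS (fun Z => jn (G (ev Z)) ∅) (jn A B) α = jn (clS G A α) B := by
  induction α using Ordinal.limitRecOn with
  | zero => rw [clS_zero, clS_zero]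
  | add_one α ih =>
    have ih' := ih
    rw [clS_succ, clS_succ, ih', ev_jn]
    ext n
    constructor
    · rintro ((⟨m, hm, h⟩ | ⟨m, hm, h⟩) | (⟨m, hm, h⟩ | ⟨m, hm, h⟩))
      · exact Or.inl ⟨m, Or.inl hm, h⟩
      · exact Or.inr ⟨m, hm, h⟩
      · exact Or.inl ⟨m, Or.inr hm, h⟩
      · exact hm.elim
    · rintro (⟨m, hm | hm, h⟩ | ⟨m, hm, h⟩)
      · exact Or.inl (Or.inl ⟨m, hm, h⟩)
      · exact Or.inr (Or.inl ⟨m, hm, h⟩)
      · exact Or.inl (Or.inr ⟨m, hm, h⟩)
  | limit l hl ih =>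
    rw [clS_limit _ _ _ hl, clS_limit _ _ _ hl]
    ext n
    constructor
    · rintro ⟨β, hβ, h⟩
      rw [ih β hβ] at h
      rcases h with ⟨m, hm, h⟩ | ⟨m, hm, h⟩
      · exact Or.inl ⟨m, ⟨β, hβ, hm⟩, h⟩
      · exact Or.inr ⟨m, hm, h⟩
    · rintro (⟨m, ⟨β, hβ, hm⟩, h⟩ | ⟨m, hm, h⟩)
      · refine ⟨β, hβ, ?_⟩
        rw [ih β hβ]
        exact Or.inl ⟨m, hm, h⟩
      · refine ⟨0, hl.bot_lt, ?_⟩
        rw [ih 0 hl.bot_lt]
        exact Or.inr ⟨m, hm, h⟩

theorem liftI_exec (I : Instr) (A B : Set ℕ) : (liftI I).exec (jn A B) = jn (I.exec A) B := by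
  cases I with
  | ar F => simp [liftI, Instr.exec]
  | cl G =>
    simp only [liftI, Instr.exec, clos]
    ext n
    constructor
    · rintro ⟨α, h⟩
      rw [clS_lift] at h
      rcases h with ⟨m, hm, h⟩ | ⟨m, hm, h⟩
      · exact Or.inl ⟨m, ⟨α, hm⟩, h⟩
      · exact Or.inr ⟨m, hm, h⟩
    · rintro (⟨m, ⟨α, hm⟩, h⟩ | ⟨m, hm, h⟩)
      · refine ⟨α, ?_⟩
        rw [clS_lift]
        exact Or.inl ⟨m, hm, h⟩
      · refine ⟨0, ?_⟩
        rw [clS_lift]
        exact Or.inr ⟨m, hm, h⟩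

theorem liftI_ok {I : Instr} (h : I.ok) : (liftI I).ok := by
  cases I with
  | ar F =>
    exact arOp_jn (ArOp.comp (F := F) h arOp_ev) arOp_od
  | cl G =>
    refine arOp_jn (F := fun X => G (ev X)) (G := fun _ => ∅) (ArOp.comp (F := G) h arOp_ev) ?_
    refine ArN.congr (ArN.prim (fun _ => false) (Primrec.const false)) ?_
    intro X n
    simp

theorem execs_lift (L : List Instr) (A B : Set ℕ) :
    execs (L.map liftI) (jn A B) = jn (execs L A) B := by
  induction L generalizing A with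
  | nil => rfl
  | cons I L ih =>
    simp only [execs, List.map_cons, List.foldl_cons, liftI_exec]
    exact ih (I.exec A)

theorem execs_append (L L' : List Instr) (X : Set ℕ) :
    execs (L ++ L') X = execs L' (execs L X) := by
  simp [execs, List.foldl_append]

end Pool.Agent.Helper88.RT
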