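import Pool.Agent.Helper88.RT.A
import Pool.Agent.Helper88.RT.ArL

/-!
# Part B of chapter RT: definitions (codes, cuts inside codes, the operators of the macro program)
-/

set_option autoImplicit false

namespace Pool.Agent.Helper88.RT

open Pool.Agent.Helper25.EV Ordinal Encodable

/-! ### Codes of histories -/

def domC (X : Set ℕ) (k : ℕ) : Prop := Nat.pair 0 k ∈ X

def ltC (X : Set ℕ) (k k' : ℕ) : Prop := Nat.pair 1 (Nat.pair k k') ∈ X

def labC (X : Set ℕ) (k i : ℕ) : Prop := Nat.pair 2 (Nat.pair k i) ∈ X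

/-- the cell `c` fires at the stage with the number `k` -/
def firC (X : Set ℕ) (k c : ℕ) : Prop := labC X k (Nat.pair 0 c)

/-- the code with a given domain, order and labels -/
def mkC (D : ℕ → Prop) (L B : ℕ → ℕ → Prop) : Set ℕ :=
  {m | ((Nat.unpair m).1 = 0 ∧ D (Nat.unpair m).2) ∨
    ((Nat.unpair m).1 = 1 ∧ L (Nat.unpair (Nat.unpair m).2).1 (Nat.unpair (Nat.unpair m).2).2) ∨
    ((Nat.unpair m).1 = 2 ∧ B (Nat.unpair (Nat.unpair m).2).1 (Nat.unpair (Nat.unpair m).2).2)}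

/-- `f` decodes the code `X` of the history `(β, lab)` -/
structure Dec (X : Set ℕ) (β : Ordinal.{0}) (lab : Ordinal.{0} → Set ℕ) (f : ℕ → Ordinal.{0}) :
    Prop where
  bij : Set.BijOn f {k | domC X k} (Set.Iio β)
  lt : ∀ k k', ltC X k k' ↔ domC X k ∧ domC X k' ∧ f k < f k'
  lab : ∀ k i, labC X k i ↔ domC X k ∧ i ∈ lab (f k)

/-- the guess of a list of bits -/
def gt (τ : List Bool) (c : ℕ) : Bool := τ.getD c false

/-- the firing process of a label function -/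
def fp (lab : Ordinal.{0} → Set ℕ) (γ : Ordinal.{0}) : Set ℕ := fires (lab γ)

/-! ### Cuts inside codes -/

def phiC (X : Set ℕ) (s : Bool) (c w x : ℕ) : Prop :=
  (s = true ∧ ∀ y, domC X y → ¬ ltC X y x → ¬ firC X y c) ∨
    (s = false ∧ ∃ y, domC X y ∧ ¬ ltC X y w ∧ ltC X y x ∧ firC X y c)

def stepC (X : Set ℕ) (s : Bool) (c w x : ℕ) : Prop :=
  domC X x ∧ ¬ ltC X x w ∧ phiC X s c w x ∧
    ∀ x', domC X x' → ltC X x' x → ¬ ltC X x' w → ¬ phiC X s c w x'

/-- `x` is the number of the `j`-th cut for the guess `τ` -/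
def cutC (X : Set ℕ) (τ : List Bool) : ℕ → ℕ → Prop
  | 0, x => domC X x ∧ ∀ y, ¬ ltC X y x
  | j + 1, x => ∃ w, cutC X τ j w ∧ stepC X (gt τ (sch j)) (sch j) w x

/-! ### Extension by a new top element -/

/-- the code `C` with a new top element `0` with the label `L`; the old number `k` becomes `k + 1` -/
def extC (C L : Set ℕ) : Set ℕ :=
  mkC (fun k => k = 0 ∨ ∃ k', k = k' + 1 ∧ domC C k')
    (fun k k' => ∃ k₁, k = k₁ + 1 ∧ domC C k₁ ∧ (k' = 0 ∨ ∃ k₂, k' = k₂ + 1 ∧ ltC C k₁ k₂))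
    (fun k i => (k = 0 ∧ i ∈ L) ∨ ∃ k', k = k' + 1 ∧ labC C k' i)

/-! ### Glueing at limits -/

/-- `τ` is the guess of length `j` which belongs to the set `G` of cells which fire cofinally -/
def isG (G : Set ℕ) (j : ℕ) (τ : List Bool) : Prop :=
  τ.length = j ∧ ∀ c < j, gt τ c = true ↔ c ∉ G

/-- the element `(j, k)` belongs to the domain of the glued code -/
def glD (G : Set ℕ) (M : List Bool → Set ℕ) (m : ℕ) : Prop :=
  ∃ τ τ' x, isG G (Nat.unpair m).1 τ ∧ isG G ((Nat.unpair m).1 + 1) τ' ∧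
    domC (M τ') (Nat.unpair m).2 ∧ cutC (M τ') τ (Nat.unpair m).1 x ∧
    ¬ ltC (M τ') (Nat.unpair m).2 x

/-- the glued code -/
def glue (G : Set ℕ) (M : List Bool → Set ℕ) : Set ℕ :=
  mkC (glD G M)
    (fun m m' => glD G M m ∧ glD G M m' ∧ ((Nat.unpair m).1 < (Nat.unpair m').1 ∨
      ((Nat.unpair m).1 = (Nat.unpair m').1 ∧ ∃ τ', isG G ((Nat.unpair m).1 + 1) τ' ∧
        ltC (M τ') (Nat.unpair m).2 (Nat.unpair m').2)))
    (fun m i => glD G M m ∧ ∃ τ', isG G ((Nat.unpair m).1 + 1) τ' ∧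
      labC (M τ') (Nat.unpair m).2 i)

/-! ### States -/

/-- the columns of a state: `1`: input, `2`: code of the history, `4`: cells which fired -/
def col (t : ℕ) (S : Set ℕ) : Set ℕ := {n | Nat.pair t n ∈ S}

/-- the stored codes (column `3`) -/
def row (S : Set ℕ) (τ : List Bool) : Set ℕ := {n | Nat.pair 3 (Nat.pair (encode τ) n) ∈ S}

/-- the state with given alarm bit and columns -/
def St (al : Prop) (Y C : Set ℕ) (M : List Bool → Set ℕ) (Fl : Set ℕ) : Set ℕ :=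
  {m | (m = 0 ∧ al) ∨ ((Nat.unpair m).1 = 1 ∧ (Nat.unpair m).2 ∈ Y) ∨
    ((Nat.unpair m).1 = 2 ∧ (Nat.unpair m).2 ∈ C) ∨
    ((Nat.unpair m).1 = 3 ∧ ∃ τ : List Bool, (Nat.unpair (Nat.unpair m).2).1 = encode τ ∧
      (Nat.unpair (Nat.unpair m).2).2 ∈ M τ) ∨
    ((Nat.unpair m).1 = 4 ∧ (Nat.unpair m).2 ∈ Fl)}

/-! ### The operators -/

/-- the initial state -/
def F0 (X : Set ℕ) : Set ℕ := St False X ∅ (fun _ => ∅) ∅

def F1 (S : Set ℕ) : Set ℕ := jn (jn (col 2 S) (col 1 S)) S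

/-- the new stored code for `τ`; `C'` is the new code, `C` the old one, `R` the old stored code -/
def newM (C' C R : Set ℕ) (τ : List Bool) : Set ℕ :=
  {n | (cutC C' τ τ.length 0 ∧ n ∈ C) ∨ ((∃ x, cutC C' τ τ.length (x + 1)) ∧ n ∈ R)}

/-- the new state at a successor stage, `L` is the label -/
def newS (L S : Set ℕ) : Set ℕ :=
  St (Nat.pair 9 0 ∈ L) (col 1 S) (extC (col 2 S) L)
    (fun τ => newM (extC (col 2 S) L) (col 2 S) (row S τ) τ) (fires L)

def F2 (Z : Set ℕ) : Set ℕ := newS (ev Z) (od Z)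

/-- the new state at a limit stage -/
def F3 (S : Set ℕ) : Set ℕ :=
  St False (col 1 S) (glue (col 4 S) (row S))
    (fun τ => {n | (∃ x, cutC (glue (col 4 S) (row S)) τ τ.length x) ∧ n ∈ row S τ}) ∅

/-- the macro program -/
def mac (nl : List Instr) : Macro where
  init := [Instr.ar F0]
  main := [Instr.ar F1] ++ nl.map liftI ++ [Instr.ar F2]
  lim := [Instr.ar F3]

theorem execs_main (nl : List Instr) (S : Set ℕ) :
    execs (mac nl).main S = newS (execs nl (jn (col 2 S) (col 1 S))) S := by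
  show execs ([Instr.ar F1] ++ nl.map liftI ++ [Instr.ar F2]) S = _
  rw [execs_append, execs_append]
  show execs [Instr.ar F2] (execs (nl.map liftI) (F1 S)) = _
  rw [F1, execs_lift]
  show F2 (jn (execs nl (jn (col 2 S) (col 1 S))) S) = _
  rw [F2, ev_jn, od_jn]

/-! ### The run -/

section

variable (nl : List Instr) (y : Real2)

/-- the limit superior of the run below `β` -/
def lsup (β : Ordinal.{0}) : Set ℕ :=
  {n | ∀ a < β, ∃ γ, γ < β ∧ a ≤ γ ∧ n ∈ mrun (mac nl) y γ}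

theorem mrun_zero : mrun (mac nl) y 0 = F0 (setOf' y) := by
  unfold mrun
  rw [Ordinal.limitRecOn_zero]
  rfl

theorem mrun_succ (β : Ordinal.{0}) : mrun (mac nl) y (β + 1) =
    newS (execs nl (jn (col 2 (mrun (mac nl) y β)) (col 1 (mrun (mac nl) y β))))
      (mrun (mac nl) y β) := by
  rw [← execs_main]
  unfold mrun
  rw [Ordinal.limitRecOn_add_one]

theorem mrun_limit (β : Ordinal.{0}) (hβ : Order.IsSuccLimit β) :
    mrun (mac nl) y β = F3 (lsup nl y β) := by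
  unfold mrun
  rw [Ordinal.limitRecOn_limit _ _ _ _ hβ]
  show F3 _ = F3 _
  congr 1
  ext n
  constructor
  · intro h a ha
    obtain ⟨γ, hγ, h1, h2⟩ := h a ha
    exact ⟨γ, hγ, h1, h2⟩
  · intro h a ha
    obtain ⟨γ, hγ, h1, h2⟩ := h a ha
    exact ⟨γ, hγ, h1, h2⟩

/-- the code of the history at the stage `β` -/
def Cf (β : Ordinal.{0}) : Set ℕ := col 2 (mrun (mac nl) y β)

/-- the stored codes at the stage `β` -/
def Mf (lab : Ordinal.{0} → Set ℕ) (β : Ordinal.{0}) (τ : List Bool) : Set ℕ :=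
  {n | cut (fp lab) (gt τ) β τ.length < β ∧ n ∈ Cf nl y (cut (fp lab) (gt τ) β τ.length)}

/-- the cells which fired at the previous stage -/
def Flf (lab : Ordinal.{0} → Set ℕ) (β : Ordinal.{0}) : Set ℕ :=
  {c | ∃ α, β = α + 1 ∧ c ∈ fp lab α}

/-- the invariant -/
structure Inv (lab : Ordinal.{0} → Set ℕ) (β : Ordinal.{0}) : Prop where
  eq : mrun (mac nl) y β = St (∃ α, β = α + 1 ∧ Nat.pair 9 0 ∈ lab α) (setOf' y) (Cf nl y β)
    (Mf nl y lab β) (Flf lab β)
  code : ∃ f, Dec (Cf nl y β) β lab f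

/-- the input `S` of the limit operator is good for the limit stage `ζ` -/
structure GI (lab : Ordinal.{0} → Set ℕ) (ζ : Ordinal.{0}) (S : Set ℕ) : Prop where
  inp : col 1 S = setOf' y
  fl : ∀ c, c ∈ col 4 S ↔ c ∉ Zc (fp lab) ζ
  row : ∀ τ : List Bool, cut (fp lab) (gt τ) ζ τ.length < ζ →
    row S τ = Cf nl y (cut (fp lab) (gt τ) ζ τ.length)

end

end Pool.Agent.Helper88.RT
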