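import Pool.Agent.Helper88.RT.StL

/-! # Module CutAr: the cuts inside a code are arithmetical -/

set_option autoImplicit false

namespace Pool.Agent.Helper88.RT

open Pool.Agent.Helper25.EV Ordinal Encodable

section

variable {α : Type} [Primcodable α]

theorem ar_domC {f : α → ℕ} (hf : Primrec f) : Ar fun X a => domC X (f a) :=
  Ar.mem (Primrec₂.natPair.comp (Primrec.const 0) hf)

theorem ar_ltC {f g : α → ℕ} (hf : Primrec f) (hg : Primrec g) :
    Ar fun X a => ltC X (f a) (g a) :=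
  Ar.mem (Primrec₂.natPair.comp (Primrec.const 1) (Primrec₂.natPair.comp hf hg))

theorem ar_firC {f g : α → ℕ} (hf : Primrec f) (hg : Primrec g) :
    Ar fun X a => firC X (f a) (g a) :=
  Ar.mem (Primrec₂.natPair.comp (Primrec.const 2) (Primrec₂.natPair.comp hf
    (Primrec₂.natPair.comp (Primrec.const 0) hg)))

theorem ar_phiC {s : α → Bool} {c w x : α → ℕ} (hs : Primrec s) (hc : Primrec c)
    (hw : Primrec w) (hx : Primrec x) : Ar fun X a => phiC X (s a) (c a) (w a) (x a) := by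
  unfold phiC
  have h1 : Ar fun X (p : α × ℕ) => domC X p.2 := ar_domC Primrec.snd
  have h2 : Ar fun X (p : α × ℕ) => ltC X p.2 (x p.1) := ar_ltC Primrec.snd (hx.comp Primrec.fst)
  have h3 : Ar fun X (p : α × ℕ) => firC X p.2 (c p.1) := ar_firC Primrec.snd (hc.comp Primrec.fst)
  have h4 : Ar fun X (p : α × ℕ) => ltC X p.2 (w p.1) := ar_ltC Primrec.snd (hw.comp Primrec.fst)
  refine Ar.or (Ar.and (Ar.prim hs) (Ar.all ?_)) (Ar.and ?_ (Ar.ex ?_))
  · exact Ar.imp h1 (Ar.imp (Ar.neg h2) (Ar.neg h3))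
  · exact Ar.congr (Ar.neg (Ar.prim hs)) (fun X a => by simp)
  · exact Ar.and h1 (Ar.and (Ar.neg h4) (Ar.and h2 h3))

theorem ar_stepC {s : α → Bool} {c w x : α → ℕ} (hs : Primrec s) (hc : Primrec c)
    (hw : Primrec w) (hx : Primrec x) : Ar fun X a => stepC X (s a) (c a) (w a) (x a) := by
  unfold stepC
  refine Ar.and (ar_domC hx) (Ar.and (Ar.neg (ar_ltC hx hw)) (Ar.and (ar_phiC hs hc hw hx)
    (Ar.all ?_)))
  exact Ar.imp (ar_domC Primrec.snd) (Ar.imp (ar_ltC Primrec.snd (hx.comp Primrec.fst))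
    (Ar.imp (Ar.neg (ar_ltC Primrec.snd (hw.comp Primrec.fst)))
      (Ar.neg (ar_phiC (hs.comp Primrec.fst) (hc.comp Primrec.fst) (hw.comp Primrec.fst)
        Primrec.snd))))

end

theorem cutC_iff_list (X : Set ℕ) (τ : List Bool) (j x : ℕ) : cutC X τ j x ↔
    ∃ l : List ℕ, l.length = j + 1 ∧ (domC X (l.getD 0 0) ∧ ∀ y, ¬ ltC X y (l.getD 0 0)) ∧
      (∀ i, i < j → stepC X (gt τ (sch i)) (sch i) (l.getD i 0) (l.getD (i + 1) 0)) ∧
      l.getD j 0 = x := by
  induction j generalizing x with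
  | zero =>
    constructor
    · intro h
      exact ⟨[x], rfl, h, fun i hi => absurd hi (Nat.not_lt_zero i), rfl⟩
    · rintro ⟨l, _, h, _, rfl⟩
      exact h
  | succ j ih =>
    constructor
    · rintro ⟨w, hw, hs⟩
      obtain ⟨l, hl, h0, h1, h2⟩ := (ih w).mp hw
      have hg : ∀ i, i < j + 1 → (l ++ [x]).getD i 0 = l.getD i 0 := by
        intro i hi
        rw [List.getD_append _ _ _ _ (by omega)]
      have hx : (l ++ [x]).getD (j + 1) 0 = x := by
        rw [List.getD_append_right _ _ _ _ (by omega), hl, Nat.sub_self]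
        rfl
      refine ⟨l ++ [x], by simp [hl], ?_, ?_, hx⟩
      · rw [hg 0 (by omega)]
        exact h0
      · intro i hi
        rw [hg i hi]
        rcases Nat.lt_succ_iff_lt_or_eq.mp hi with h | rfl
        · rw [hg (i + 1) (by omega)]
          exact h1 i h
        · rw [hx, h2]
          exact hs
    · rintro ⟨l, hl, h0, h1, rfl⟩
      refine ⟨l.getD j 0, (ih _).mpr ⟨l.take (j + 1), ?_, ?_, ?_, ?_⟩, h1 j (by omega)⟩
      · rw [List.length_take]
        omega
      · have : (l.take (j + 1)).getD 0 0 = l.getD 0 0 := by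
          simp [List.getD_eq_getElem?_getD, List.getElem?_take]
        rw [this]
        exact h0
      · intro i hi
        have h2 : ∀ i, i < j + 1 → (l.take (j + 1)).getD i 0 = l.getD i 0 := by
          intro i hi
          simp [List.getD_eq_getElem?_getD, List.getElem?_take, hi]
        rw [h2 i (by omega), h2 (i + 1) (by omega)]
        exact h1 i (by omega)
      · simp [List.getD_eq_getElem?_getD, List.getElem?_take]

theorem ar_cutC : Ar fun X (p : List Bool × ℕ × ℕ) => cutC X p.1 p.2.1 p.2.2 := by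
  have hsch : Primrec sch := Primrec.fst.comp Primrec.unpair
  have hgetN : Primrec₂ fun (l : List ℕ) (i : ℕ) => l.getD i 0 := Primrec.list_getD 0
  have hgetB : Primrec₂ fun (l : List Bool) (i : ℕ) => l.getD i false := Primrec.list_getD false
  refine Ar.congr ?_ (fun X p => (cutC_iff_list X p.1 p.2.1 p.2.2).symm)
  -- the parameter type is `(List Bool × ℕ × ℕ) × List ℕ`
  have hl : Primrec fun p : (List Bool × ℕ × ℕ) × List ℕ => p.2 := Primrec.snd
  have hj : Primrec fun p : (List Bool × ℕ × ℕ) × List ℕ => p.1.2.1 :=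
    Primrec.fst.comp (Primrec.snd.comp Primrec.fst)
  have hx : Primrec fun p : (List Bool × ℕ × ℕ) × List ℕ => p.1.2.2 :=
    Primrec.snd.comp (Primrec.snd.comp Primrec.fst)
  have h0 : Primrec fun p : (List Bool × ℕ × ℕ) × List ℕ => p.2.getD 0 0 :=
    hgetN.comp hl (Primrec.const 0)
  refine Ar.ex (P := fun X (p : List Bool × ℕ × ℕ) (l : List ℕ) => l.length = p.2.1 + 1 ∧
      (domC X (l.getD 0 0) ∧ ∀ y, ¬ ltC X y (l.getD 0 0)) ∧
      (∀ i, i < p.2.1 → stepC X (gt p.1 (sch i)) (sch i) (l.getD i 0) (l.getD (i + 1) 0)) ∧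
      l.getD p.2.1 0 = p.2.2) ?_
  refine Ar.and (Ar.pred ?_) (Ar.and (Ar.and (ar_domC h0) (Ar.all ?_)) (Ar.and (Ar.all ?_)
    (Ar.pred ?_)))
  · exact Primrec.eq.comp (Primrec.list_length.comp hl) (Primrec.succ.comp hj)
  · exact Ar.neg (ar_ltC Primrec.snd (h0.comp Primrec.fst))
  · refine Ar.imp (Ar.pred ?_) (ar_stepC ?_ ?_ ?_ ?_)
    · exact Primrec.nat_lt.comp Primrec.snd (hj.comp Primrec.fst)
    · exact hgetB.comp (Primrec.fst.comp (Primrec.fst.comp Primrec.fst)) (hsch.comp Primrec.snd)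
    · exact hsch.comp Primrec.snd
    · exact hgetN.comp (hl.comp Primrec.fst) Primrec.snd
    · exact hgetN.comp (hl.comp Primrec.fst) (Primrec.succ.comp Primrec.snd)
  · exact Primrec.eq.comp (hgetN.comp hl hj) hx

end Pool.Agent.Helper88.RT
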