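import Pool.Agent.Helper88.RT.A

/-! # Module CutL: two more facts on cuts -/

set_option autoImplicit false

namespace Pool.Agent.Helper88.RT

open Pool.Agent.Helper25.EV Ordinal Order

/-- the `j`-th cut of the `j`-th cut -/
theorem cut_ge (F : Ordinal.{0} → Set ℕ) (g : ℕ → Bool) (β : Ordinal.{0}) (j : ℕ)
    (h : cut F g β j ≤ β) : cut F g β j ≤ cut F g (cut F g β j) j := by
  induction j with
  | zero => exact le_rfl
  | succ j ih =>
    have hm : cut F g β j ≤ cut F g β (j + 1) := cut_mono F g β (Nat.le_succ j)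
    set β' := cut F g β (j + 1) with hβ'
    have hstep : β' = cutS F (g (sch j)) (sch j) (cut F g β j) β := rfl
    rcases hm.eq_or_lt with he | hlt
    · have h1 := ih (hm.trans h)
      rw [he] at h1
      exact h1.trans (cut_mono F g β' (Nat.le_succ j))
    · have h1 : cut F g β' j = cut F g β j := cut_stable F g β β' j hlt h
      have h2 : cut F g β' (j + 1) = cutS F (g (sch j)) (sch j) (cut F g β j) β' := by
        show cutS F (g (sch j)) (sch j) (cut F g β' j) β' = _
        rw [h1]
      rw [h2]
      cases hs : g (sch j) with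
      | true =>
        rw [hs] at hstep
        obtain ⟨a1, a2, a3⟩ := cutS_true F (sch j) (cut F g β j) β
        obtain ⟨b1, b2, b3⟩ := cutS_true F (sch j) (cut F g β j) β'
        rw [← hstep] at a1 a2 a3
        apply a3 _ b1
        intro α h3 h4
        rcases lt_or_ge α β' with h5 | h5
        · exact b2 α h3 h5
        · exact a2 α h5 h4
      | false =>
        rw [hs] at hstep
        by_cases hex : ∃ α, cut F g β j ≤ α ∧ α < β ∧ sch j ∈ F α
        · obtain ⟨α, c1, c2, c3, c4, c5⟩ := cutS_false_pos F (sch j) (cut F g β j) β hex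
          have h3 : β' = succ α := hstep.trans c1
          have hex' : ∃ α, cut F g β j ≤ α ∧ α < β' ∧ sch j ∈ F α :=
            ⟨α, c2, h3 ▸ lt_succ α, c4⟩
          obtain ⟨α', d1, d2, d3, d4, d5⟩ := cutS_false_pos F (sch j) (cut F g β j) β' hex'
          rw [d1, h3]
          apply succ_le_succ
          exact c5 α' d2 (d3.trans_le h) d4
        · have h3 := cutS_false_neg F (sch j) (cut F g β j) β hex
          have h4 : β ≤ β' := by
            rw [hstep, h3]
            exact le_max_right _ _
          have h5 : β' = β := le_antisymm h h4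
          have h6 : cutS F false (sch j) (cut F g β j) β' = β' := by
            conv_lhs => rw [h5]
            exact hstep.symm
          rw [h6]

/-- cuts which are defined at the beginning of a loop do not change inside the loop -/
theorem cut_mid {F : Ordinal.{0} → Set ℕ} {ζ σ : Ordinal.{0}} (hl : Loop F ζ σ) (g : ℕ → Bool)
    (j : ℕ) (h : cut F g ζ j < ζ) (β : Ordinal.{0}) (h1 : ζ ≤ β) (h2 : β ≤ σ) :
    cut F g β j = cut F g ζ j := by
  induction j with
  | zero => rfl
  | succ j ih =>
    have hm : cut F g ζ j ≤ cut F g ζ (j + 1) := cut_mono F g ζ (Nat.le_succ j)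
    have ih' := ih (hm.trans_lt h)
    have hz : cut F g ζ (j + 1) = cutS F (g (sch j)) (sch j) (cut F g ζ j) ζ := rfl
    have hb : cut F g β (j + 1) = cutS F (g (sch j)) (sch j) (cut F g ζ j) β := by
      show cutS F (g (sch j)) (sch j) (cut F g β j) β = _
      rw [ih']
    rw [hb, hz]
    rw [hz] at h
    cases hs : g (sch j) with
    | true =>
      rw [hs] at h
      obtain ⟨a1, a2, a3⟩ := cutS_true F (sch j) (cut F g ζ j) ζ
      obtain ⟨b1, b2, b3⟩ := cutS_true F (sch j) (cut F g ζ j) β
      have hc : sch j ∈ Zc F ζ := ⟨_, h, a2⟩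
      apply le_antisymm
      · apply b3 _ a1
        intro α h3 h4
        rcases lt_or_ge α ζ with h5 | h5
        · exact a2 α h3 h5
        · exact hl.sil _ hc α h5 (h4.trans_le h2)
      · exact a3 _ b1 (fun α h3 h4 => b2 α h3 (h4.trans_le h1))
    | false =>
      rw [hs] at h
      by_cases hex : ∃ α, cut F g ζ j ≤ α ∧ α < ζ ∧ sch j ∈ F α
      · obtain ⟨α, c1, c2, c3, c4, c5⟩ := cutS_false_pos F (sch j) (cut F g ζ j) ζ hex
        have hex' : ∃ α, cut F g ζ j ≤ α ∧ α < β ∧ sch j ∈ F α := ⟨α, c2, c3.trans_le h1, c4⟩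
        obtain ⟨α', d1, d2, d3, d4, d5⟩ := cutS_false_pos F (sch j) (cut F g ζ j) β hex'
        rw [d1, c1]
        congr 1
        have h6 : α' ≤ α := d5 α c2 (c3.trans_le h1) c4
        exact le_antisymm h6 (c5 α' d2 (h6.trans_lt c3) d4)
      · rw [cutS_false_neg F _ _ _ hex] at h
        exact absurd ((le_max_right _ _).trans_lt h) (lt_irrefl _)

end Pool.Agent.Helper88.RT
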