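import Pool.Agent.Helper88.RT.StL

/-! # Module CutSem: the cuts inside a code are the true cuts -/

set_option autoImplicit false

namespace Pool.Agent.Helper88.RT

open Pool.Agent.Helper25.EV Ordinal Encodable

/-- the condition of one step of the cuts -/
private def phiO (F : Ordinal.{0} → Set ℕ) (s : Bool) (c : ℕ) (γ β x : Ordinal.{0}) : Prop :=
  (s = true ∧ ∀ α, x ≤ α → α < β → c ∉ F α) ∨ (s = false ∧ ∃ α, γ ≤ α ∧ α < x ∧ c ∈ F α)

private theorem cutS_eq_iff (F : Ordinal.{0} → Set ℕ) (s : Bool) (c : ℕ) (γ β x : Ordinal.{0})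
    (hx : x < β) : cutS F s c γ β = x ↔
      γ ≤ x ∧ phiO F s c γ β x ∧ ∀ x' < x, γ ≤ x' → ¬ phiO F s c γ β x' := by
  cases s with
  | true =>
    obtain ⟨h1, h2, h3⟩ := cutS_true F c γ β
    constructor
    · intro h
      rw [h] at h1 h2 h3
      refine ⟨h1, Or.inl ⟨rfl, h2⟩, fun x' hx' hγ hφ => ?_⟩
      rcases hφ with ⟨-, hφ⟩ | ⟨hf, -⟩
      · exact absurd (h3 x' hγ hφ) (not_le.2 hx')
      · exact absurd hf (by simp)
    · rintro ⟨h4, h5, h6⟩
      rcases h5 with ⟨-, h5⟩ | ⟨hf, -⟩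
      · refine le_antisymm (h3 x h4 h5) ?_
        by_contra hlt
        push Not at hlt
        exact h6 _ hlt h1 (Or.inl ⟨rfl, h2⟩)
      · exact absurd hf (by simp)
  | false =>
    by_cases hex : ∃ α, γ ≤ α ∧ α < β ∧ c ∈ F α
    · obtain ⟨α, h1, h2, h3, h4, h5⟩ := cutS_false_pos F c γ β hex
      rw [h1]
      have hγ : γ ≤ Order.succ α := h2.trans (Order.le_succ α)
      have hφ : phiO F false c γ β (Order.succ α) := Or.inr ⟨rfl, α, h2, Order.lt_succ α, h4⟩
      constructor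
      · rintro rfl
        refine ⟨hγ, hφ, fun x' hx' hγ' hφ' => ?_⟩
        rcases hφ' with ⟨hf, -⟩ | ⟨-, α', h6, h7, h8⟩
        · exact absurd hf (by simp)
        · have h9 : x' ≤ α := Order.lt_succ_iff.1 hx'
          have h10 := h5 α' h6 ((h7.trans_le h9).trans h3) h8
          exact absurd (h7.trans_le h9) (not_lt.2 h10)
      · rintro ⟨h6, h7, h8⟩
        rcases h7 with ⟨hf, -⟩ | ⟨-, α', h9, h10, h11⟩
        · exact absurd hf (by simp)
        · have h12 : α ≤ α' := h5 α' h9 (h10.trans hx) h11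
          refine le_antisymm (Order.succ_le_of_lt (h12.trans_lt h10)) ?_
          by_contra hlt
          push Not at hlt
          exact h8 _ hlt hγ hφ
    · rw [cutS_false_neg F c γ β hex]
      constructor
      · intro h
        exact absurd ((le_max_right γ β).trans_eq h) (not_le.2 hx)
      · rintro ⟨h6, h7, h8⟩
        rcases h7 with ⟨hf, -⟩ | ⟨-, α', h9, h10, h11⟩
        · exact absurd hf (by simp)
        · exact absurd ⟨α', h9, h10.trans hx, h11⟩ hex

section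

variable {X : Set ℕ} {β : Ordinal.{0}} {lab : Ordinal.{0} → Set ℕ} {f : ℕ → Ordinal.{0}}

private theorem firC_iff (h : Dec X β lab f) (k c : ℕ) :
    firC X k c ↔ domC X k ∧ c ∈ fp lab (f k) := h.lab k (Nat.pair 0 c)

private theorem dec_surj (h : Dec X β lab f) {a : Ordinal.{0}} (ha : a < β) :
    ∃ k, domC X k ∧ f k = a := by
  obtain ⟨k, hk, hk'⟩ := h.bij.surjOn (show a ∈ Set.Iio β from ha)
  exact ⟨k, hk, hk'⟩

private theorem dec_lt (h : Dec X β lab f) {k : ℕ} (hk : domC X k) : f k < β :=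
  h.bij.mapsTo (show k ∈ {k | domC X k} from hk)

private theorem phiC_iff (h : Dec X β lab f) (s : Bool) (c : ℕ) {w x : ℕ} (hw : domC X w)
    (hx : domC X x) : phiC X s c w x ↔ phiO (fp lab) s c (f w) β (f x) := by
  refine or_congr (and_congr Iff.rfl ?_) (and_congr Iff.rfl ?_)
  · constructor
    · intro h1 α h2 h3 h4
      obtain ⟨k, hk, rfl⟩ := dec_surj h h3
      exact h1 k hk (fun h5 => absurd ((h.lt _ _).1 h5).2.2 (not_lt.2 h2))
        ((firC_iff h k c).2 ⟨hk, h4⟩)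
    · intro h1 y hy h2 h3
      refine h1 (f y) ?_ (dec_lt h hy) ((firC_iff h y c).1 h3).2
      by_contra h4
      push Not at h4
      exact h2 ((h.lt _ _).2 ⟨hy, hx, h4⟩)
  · constructor
    · rintro ⟨y, hy, h1, h2, h3⟩
      refine ⟨f y, ?_, ((h.lt _ _).1 h2).2.2, ((firC_iff h y c).1 h3).2⟩
      by_contra h4
      push Not at h4
      exact h1 ((h.lt _ _).2 ⟨hy, hw, h4⟩)
    · rintro ⟨α, h1, h2, h3⟩
      obtain ⟨y, hy, rfl⟩ := dec_surj h (h2.trans (dec_lt h hx))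
      exact ⟨y, hy, fun h5 => absurd ((h.lt _ _).1 h5).2.2 (not_lt.2 h1),
        (h.lt _ _).2 ⟨hy, hx, h2⟩, (firC_iff h y c).2 ⟨hy, h3⟩⟩

private theorem stepC_iff (h : Dec X β lab f) (s : Bool) (c : ℕ) {w : ℕ} (hw : domC X w) (x : ℕ) :
    stepC X s c w x ↔ domC X x ∧ cutS (fp lab) s c (f w) β = f x := by
  unfold stepC
  refine and_congr_right fun hx => ?_
  rw [cutS_eq_iff _ _ _ _ _ _ (dec_lt h hx)]
  refine and_congr ?_ (and_congr (phiC_iff h s c hw hx) ?_)
  · rw [h.lt, ← not_lt]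
    exact not_congr ⟨fun h1 => h1.2.2, fun h1 => ⟨hx, hw, h1⟩⟩
  · constructor
    · intro h1 x' h2 h3
      obtain ⟨y, hy, rfl⟩ := dec_surj h (h2.trans (dec_lt h hx))
      have h4 := h1 y hy ((h.lt _ _).2 ⟨hy, hx, h2⟩)
        (fun h5 => absurd ((h.lt _ _).1 h5).2.2 (not_lt.2 h3))
      rwa [phiC_iff h s c hw hy] at h4
    · intro h1 y hy h2 h3
      rw [phiC_iff h s c hw hy]
      refine h1 (f y) ((h.lt _ _).1 h2).2.2 ?_
      by_contra h4
      push Not at h4
      exact h3 ((h.lt _ _).2 ⟨hy, hw, h4⟩)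

end

theorem cutC_iff {X : Set ℕ} {β : Ordinal.{0}} {lab : Ordinal.{0} → Set ℕ} {f : ℕ → Ordinal.{0}}
    (h : Dec X β lab f) (τ : List Bool) (j x : ℕ) :
    cutC X τ j x ↔ domC X x ∧ f x = cut (fp lab) (gt τ) β j := by
  induction j generalizing x with
  | zero =>
    show (domC X x ∧ ∀ y, ¬ ltC X y x) ↔ domC X x ∧ f x = 0
    refine and_congr_right fun hx => ?_
    constructor
    · intro h1
      by_contra h2
      have h3 : 0 < f x := pos_iff_ne_zero.2 h2
      obtain ⟨y, hy, hy'⟩ := dec_surj h (h3.trans (dec_lt h hx))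
      exact h1 y ((h.lt _ _).2 ⟨hy, hx, by rw [hy']; exact h3⟩)
    · intro h1 y h2
      have h3 := ((h.lt _ _).1 h2).2.2
      rw [h1] at h3
      exact absurd h3 (not_lt.2 zero_le)
  | succ j ih =>
    show (∃ w, cutC X τ j w ∧ stepC X (gt τ (sch j)) (sch j) w x) ↔
      domC X x ∧ f x = cutS (fp lab) (gt τ (sch j)) (sch j) (cut (fp lab) (gt τ) β j) β
    constructor
    · rintro ⟨w, hw, hs⟩
      obtain ⟨hw1, hw2⟩ := (ih w).1 hw
      obtain ⟨hx, hx'⟩ := (stepC_iff h _ _ hw1 x).1 hs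
      rw [hw2] at hx'
      exact ⟨hx, hx'.symm⟩
    · rintro ⟨hx, hx'⟩
      have h1 : cut (fp lab) (gt τ) β j < β := by
        refine lt_of_le_of_lt ?_ (dec_lt h hx)
        rw [hx']
        exact le_cutS _ _ _ _ _
      obtain ⟨w, hw, hw'⟩ := dec_surj h h1
      refine ⟨w, (ih w).2 ⟨hw, hw'⟩, (stepC_iff h _ _ hw x).2 ⟨hx, ?_⟩⟩
      rw [hw', hx']

end Pool.Agent.Helper88.RT
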