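import Pool.Agent.Helper88.RT.StAr

/-! # Module ExtAr: the extension of a code is arithmetical -/

set_option autoImplicit false

namespace Pool.Agent.Helper88.RT

open Pool.Agent.Helper25.EV Ordinal Encodable

theorem ExtAr.ar_domC {C : Set ℕ → Set ℕ} (hC : ArOp C) : Ar fun X (k : ℕ) => domC (C X) k :=
  Ar.comp (ArOp.toAr hC) (f := fun k : ℕ => Nat.pair 0 k)
    (Primrec₂.natPair.comp (Primrec.const 0) Primrec.id)

theorem ExtAr.ar_ltC {C : Set ℕ → Set ℕ} (hC : ArOp C) :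
    Ar fun X (p : ℕ × ℕ) => ltC (C X) p.1 p.2 :=
  Ar.comp (ArOp.toAr hC) (f := fun p : ℕ × ℕ => Nat.pair 1 (Nat.pair p.1 p.2))
    (Primrec₂.natPair.comp (Primrec.const 1) (Primrec₂.natPair.comp Primrec.fst Primrec.snd))

theorem ExtAr.ar_labC {C : Set ℕ → Set ℕ} (hC : ArOp C) :
    Ar fun X (p : ℕ × ℕ) => labC (C X) p.1 p.2 :=
  Ar.comp (ArOp.toAr hC) (f := fun p : ℕ × ℕ => Nat.pair 2 (Nat.pair p.1 p.2))
    (Primrec₂.natPair.comp (Primrec.const 2) (Primrec₂.natPair.comp Primrec.fst Primrec.snd))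

theorem ExtAr.ar_eq_succ {α : Type} [Primcodable α] {f g : α → ℕ} (hf : Primrec f) (hg : Primrec g) :
    Ar fun (_ : Set ℕ) (a : α) => f a = g a + 1 :=
  Ar.pred (Primrec.eq.comp hf (Primrec.succ.comp hg))

theorem ExtAr.ar_eq_zero {α : Type} [Primcodable α] {f : α → ℕ} (hf : Primrec f) :
    Ar fun (_ : Set ℕ) (a : α) => f a = 0 :=
  Ar.pred (Primrec.eq.comp hf (Primrec.const 0))

theorem arOp_extC {C L : Set ℕ → Set ℕ} (hC : ArOp C) (hL : ArOp L) :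
    ArOp fun X => extC (C X) (L X) := by
  refine arOp_mkC (D := fun X k => k = 0 ∨ ∃ k', k = k' + 1 ∧ domC (C X) k')
    (L := fun X k k' => ∃ k₁, k = k₁ + 1 ∧ domC (C X) k₁ ∧
      (k' = 0 ∨ ∃ k₂, k' = k₂ + 1 ∧ ltC (C X) k₁ k₂))
    (B := fun X k i => (k = 0 ∧ i ∈ L X) ∨ ∃ k', k = k' + 1 ∧ labC (C X) k' i) ?_ ?_ ?_
  · refine Ar.or (ExtAr.ar_eq_zero Primrec.id) ?_
    refine Ar.ex (P := fun X (k : ℕ) (k' : ℕ) => k = k' + 1 ∧ domC (C X) k') ?_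
    exact Ar.and (ExtAr.ar_eq_succ Primrec.fst Primrec.snd) (Ar.comp (ExtAr.ar_domC hC) Primrec.snd)
  · refine Ar.ex (P := fun X (p : ℕ × ℕ) (k₁ : ℕ) => p.1 = k₁ + 1 ∧ domC (C X) k₁ ∧
      (p.2 = 0 ∨ ∃ k₂, p.2 = k₂ + 1 ∧ ltC (C X) k₁ k₂)) ?_
    refine Ar.and (ExtAr.ar_eq_succ (Primrec.fst.comp Primrec.fst) Primrec.snd) ?_
    refine Ar.and (Ar.comp (ExtAr.ar_domC hC) Primrec.snd) ?_
    refine Ar.or (ExtAr.ar_eq_zero (Primrec.snd.comp Primrec.fst)) ?_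
    refine Ar.ex (P := fun X (q : (ℕ × ℕ) × ℕ) (k₂ : ℕ) => q.1.2 = k₂ + 1 ∧ ltC (C X) q.2 k₂) ?_
    exact Ar.and (ExtAr.ar_eq_succ (Primrec.snd.comp (Primrec.fst.comp Primrec.fst)) Primrec.snd)
      (Ar.comp (ExtAr.ar_ltC hC) (f := fun r : ((ℕ × ℕ) × ℕ) × ℕ => (r.1.2, r.2))
        ((Primrec.snd.comp Primrec.fst).pair Primrec.snd))
  · refine Ar.or (Ar.and (ExtAr.ar_eq_zero Primrec.fst) (Ar.comp (ArOp.toAr hL) Primrec.snd)) ?_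
    refine Ar.ex (P := fun X (p : ℕ × ℕ) (k' : ℕ) => p.1 = k' + 1 ∧ labC (C X) k' p.2) ?_
    exact Ar.and (ExtAr.ar_eq_succ (Primrec.fst.comp Primrec.fst) Primrec.snd)
      (Ar.comp (ExtAr.ar_labC hC) (f := fun r : (ℕ × ℕ) × ℕ => (r.2, r.1.2))
        (Primrec.snd.pair (Primrec.snd.comp Primrec.fst)))

end Pool.Agent.Helper88.RT
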