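import Pool.Agent.Helper88.RT.StAr
import Pool.Agent.Helper88.RT.CutAr

/-! # Module GlueAr: glueing is arithmetical -/

set_option autoImplicit false

namespace Pool.Agent.Helper88.RT

open Pool.Agent.Helper25.EV Ordinal Encodable

private theorem up1 {α : Type} [Primcodable α] {f : α → ℕ} (hf : Primrec f) :
    Primrec fun a => (Nat.unpair (f a)).1 :=
  Primrec.fst.comp (Primrec.unpair.comp hf)

private theorem up2 {α : Type} [Primcodable α] {f : α → ℕ} (hf : Primrec f) :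
    Primrec fun a => (Nat.unpair (f a)).2 :=
  Primrec.snd.comp (Primrec.unpair.comp hf)

/-- the guesses are arithmetical -/
private theorem ar_isG {G : Set ℕ → Set ℕ} (hG : ArOp G) :
    Ar fun X (p : ℕ × List Bool) => isG (G X) p.1 p.2 := by
  have h1 : Ar fun (_ : Set ℕ) (p : ℕ × List Bool) => p.2.length = p.1 :=
    Ar.pred (Primrec.eq.comp (Primrec.list_length.comp Primrec.snd) Primrec.fst)
  have h2 : Ar fun (_ : Set ℕ) (q : (ℕ × List Bool) × ℕ) => q.2 < q.1.1 :=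
    Ar.pred (Primrec.nat_lt.comp Primrec.snd (Primrec.fst.comp Primrec.fst))
  have h3 : Ar fun (_ : Set ℕ) (q : (ℕ × List Bool) × ℕ) => gt q.1.2 q.2 = true :=
    Ar.prim (f := fun q : (ℕ × List Bool) × ℕ => gt q.1.2 q.2)
      ((Primrec.list_getD false).comp (Primrec.snd.comp Primrec.fst) Primrec.snd)
  have h4 : Ar fun X (q : (ℕ × List Bool) × ℕ) => q.2 ∉ G X :=
    Ar.neg (Ar.comp (ArOp.toAr hG) Primrec.snd)
  exact Ar.and h1 (Ar.all (P := fun X (p : ℕ × List Bool) (c : ℕ) =>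
    c < p.1 → (gt p.2 c = true ↔ c ∉ G X)) (Ar.imp h2 (Ar.iff h3 h4)))

section

variable {M : Set ℕ → List Bool → Set ℕ} (hM : Ar fun X (p : List Bool × ℕ) => p.2 ∈ M X p.1)

include hM

private theorem ar_domM {α : Type} [Primcodable α] {t : α → List Bool} {k : α → ℕ}
    (ht : Primrec t) (hk : Primrec k) : Ar fun X (a : α) => domC (M X (t a)) (k a) :=
  Ar.comp hM (f := fun a : α => (t a, Nat.pair 0 (k a)))
    (ht.pair (Primrec₂.natPair.comp (Primrec.const 0) hk))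

private theorem ar_ltM {α : Type} [Primcodable α] {t : α → List Bool} {k l : α → ℕ}
    (ht : Primrec t) (hk : Primrec k) (hl : Primrec l) :
    Ar fun X (a : α) => ltC (M X (t a)) (k a) (l a) :=
  Ar.comp hM (f := fun a : α => (t a, Nat.pair 1 (Nat.pair (k a) (l a))))
    (ht.pair (Primrec₂.natPair.comp (Primrec.const 1) (Primrec₂.natPair.comp hk hl)))

private theorem ar_labM {α : Type} [Primcodable α] {t : α → List Bool} {k l : α → ℕ}
    (ht : Primrec t) (hk : Primrec k) (hl : Primrec l) :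
    Ar fun X (a : α) => labC (M X (t a)) (k a) (l a) :=
  Ar.comp hM (f := fun a : α => (t a, Nat.pair 2 (Nat.pair (k a) (l a))))
    (ht.pair (Primrec₂.natPair.comp (Primrec.const 2) (Primrec₂.natPair.comp hk hl)))

private theorem ar_cutM {α : Type} [Primcodable α] {t s : α → List Bool} {k l : α → ℕ}
    (ht : Primrec t) (hs : Primrec s) (hk : Primrec k) (hl : Primrec l) :
    Ar fun X (a : α) => cutC (M X (t a)) (s a) (k a) (l a) :=
  Ar.comp (Ar.substP ar_cutC hM) (f := fun a : α => (t a, (s a, k a, l a)))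
    (ht.pair (hs.pair (hk.pair hl)))

private theorem ar_glD {G : Set ℕ → Set ℕ} (hG : ArOp G) :
    Ar fun X (m : ℕ) => glD (G X) (M X) m := by
  refine Ar.ex (P := fun X (m : ℕ) (τ : List Bool) => ∃ τ' x,
    isG (G X) (Nat.unpair m).1 τ ∧ isG (G X) ((Nat.unpair m).1 + 1) τ' ∧
    domC (M X τ') (Nat.unpair m).2 ∧ cutC (M X τ') τ (Nat.unpair m).1 x ∧
    ¬ ltC (M X τ') (Nat.unpair m).2 x) ?_
  refine Ar.ex (P := fun X (p : ℕ × List Bool) (τ' : List Bool) => ∃ x,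
    isG (G X) (Nat.unpair p.1).1 p.2 ∧ isG (G X) ((Nat.unpair p.1).1 + 1) τ' ∧
    domC (M X τ') (Nat.unpair p.1).2 ∧ cutC (M X τ') p.2 (Nat.unpair p.1).1 x ∧
    ¬ ltC (M X τ') (Nat.unpair p.1).2 x) ?_
  refine Ar.ex (P := fun X (q : (ℕ × List Bool) × List Bool) (x : ℕ) =>
    isG (G X) (Nat.unpair q.1.1).1 q.1.2 ∧ isG (G X) ((Nat.unpair q.1.1).1 + 1) q.2 ∧
    domC (M X q.2) (Nat.unpair q.1.1).2 ∧ cutC (M X q.2) q.1.2 (Nat.unpair q.1.1).1 x ∧
    ¬ ltC (M X q.2) (Nat.unpair q.1.1).2 x) ?_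
  have pm : Primrec fun w : ((ℕ × List Bool) × List Bool) × ℕ => w.1.1.1 :=
    Primrec.fst.comp (Primrec.fst.comp Primrec.fst)
  have pt : Primrec fun w : ((ℕ × List Bool) × List Bool) × ℕ => w.1.1.2 :=
    Primrec.snd.comp (Primrec.fst.comp Primrec.fst)
  have pt' : Primrec fun w : ((ℕ × List Bool) × List Bool) × ℕ => w.1.2 :=
    Primrec.snd.comp Primrec.fst
  have px : Primrec fun w : ((ℕ × List Bool) × List Bool) × ℕ => w.2 := Primrec.snd
  exact Ar.and (Ar.comp (ar_isG hG) ((up1 pm).pair pt))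
    (Ar.and (Ar.comp (ar_isG hG) ((Primrec.succ.comp (up1 pm)).pair pt'))
    (Ar.and (ar_domM hM pt' (up2 pm))
    (Ar.and (ar_cutM hM pt' pt (up1 pm) px) (Ar.neg (ar_ltM hM pt' (up2 pm) px)))))

end

theorem arOp_glue {G : Set ℕ → Set ℕ} {M : Set ℕ → List Bool → Set ℕ} (hG : ArOp G)
    (hM : Ar fun X (p : List Bool × ℕ) => p.2 ∈ M X p.1) :
    ArOp fun X => glue (G X) (M X) := by
  have hD := ar_glD hM hG
  refine arOp_mkC hD ?_ ?_
  · have h1 : Ar fun X (p : ℕ × ℕ) => glD (G X) (M X) p.1 := Ar.comp hD Primrec.fst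
    have h2 : Ar fun X (p : ℕ × ℕ) => glD (G X) (M X) p.2 := Ar.comp hD Primrec.snd
    have h3 : Ar fun (_ : Set ℕ) (p : ℕ × ℕ) => (Nat.unpair p.1).1 < (Nat.unpair p.2).1 :=
      Ar.pred (Primrec.nat_lt.comp (up1 Primrec.fst) (up1 Primrec.snd))
    have h4 : Ar fun (_ : Set ℕ) (p : ℕ × ℕ) => (Nat.unpair p.1).1 = (Nat.unpair p.2).1 :=
      Ar.pred (Primrec.eq.comp (up1 Primrec.fst) (up1 Primrec.snd))
    have h5 : Ar fun X (p : ℕ × ℕ) => ∃ τ', isG (G X) ((Nat.unpair p.1).1 + 1) τ' ∧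
        ltC (M X τ') (Nat.unpair p.1).2 (Nat.unpair p.2).2 := by
      refine Ar.ex (P := fun X (p : ℕ × ℕ) (τ' : List Bool) =>
        isG (G X) ((Nat.unpair p.1).1 + 1) τ' ∧
        ltC (M X τ') (Nat.unpair p.1).2 (Nat.unpair p.2).2) ?_
      have p1 : Primrec fun w : (ℕ × ℕ) × List Bool => w.1.1 := Primrec.fst.comp Primrec.fst
      have p2 : Primrec fun w : (ℕ × ℕ) × List Bool => w.1.2 := Primrec.snd.comp Primrec.fst
      exact Ar.and (Ar.comp (ar_isG hG) ((Primrec.succ.comp (up1 p1)).pair Primrec.snd))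
        (ar_ltM hM Primrec.snd (up2 p1) (up2 p2))
    exact Ar.and h1 (Ar.and h2 (Ar.or h3 (Ar.and h4 h5)))
  · have h1 : Ar fun X (p : ℕ × ℕ) => glD (G X) (M X) p.1 := Ar.comp hD Primrec.fst
    have h5 : Ar fun X (p : ℕ × ℕ) => ∃ τ', isG (G X) ((Nat.unpair p.1).1 + 1) τ' ∧
        labC (M X τ') (Nat.unpair p.1).2 p.2 := by
      refine Ar.ex (P := fun X (p : ℕ × ℕ) (τ' : List Bool) =>
        isG (G X) ((Nat.unpair p.1).1 + 1) τ' ∧ labC (M X τ') (Nat.unpair p.1).2 p.2) ?_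
      have p1 : Primrec fun w : (ℕ × ℕ) × List Bool => w.1.1 := Primrec.fst.comp Primrec.fst
      have p2 : Primrec fun w : (ℕ × ℕ) × List Bool => w.1.2 := Primrec.snd.comp Primrec.fst
      exact Ar.and (Ar.comp (ar_isG hG) ((Primrec.succ.comp (up1 p1)).pair Primrec.snd))
        (ar_labM hM Primrec.snd (up2 p1) p2)
    exact Ar.and h1 h5

end Pool.Agent.Helper88.RT
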