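import Pool.Agent.Helper88.RT.CutSem
import Pool.Agent.Helper88.RT.CutL

/-! # Module GlueSem: the glued code -/

set_option autoImplicit false

namespace Pool.Agent.Helper88.RT

open Pool.Agent.Helper25.EV Ordinal Encodable

theorem glue_congr {G : Set ℕ} {M M' : List Bool → Set ℕ} (h : ∀ j τ, isG G j τ → M τ = M' τ) :
    glue G M = glue G M' := by
  have h1 : glD G M = glD G M' := by
    funext m
    refine propext (exists_congr fun τ => exists_congr fun τ' => exists_congr fun x =>
      and_congr_right fun _ => and_congr_right fun h2 => ?_)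
    rw [h _ _ h2]
  unfold glue
  rw [h1]
  congr 1
  · funext m m'
    refine propext (and_congr Iff.rfl (and_congr Iff.rfl (or_congr Iff.rfl
      (and_congr Iff.rfl (exists_congr fun τ' => and_congr_right fun h2 => ?_)))))
    rw [h _ _ h2]
  · funext m i
    refine propext (and_congr Iff.rfl (exists_congr fun τ' => and_congr_right fun h2 => ?_))
    rw [h _ _ h2]

/-- the true guess of length `j` -/
private def tauJ (g : ℕ → Bool) (j : ℕ) : List Bool := List.ofFn fun c : Fin j => g c

private theorem length_tauJ (g : ℕ → Bool) (j : ℕ) : (tauJ g j).length = j := by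
  simp [tauJ]

private theorem gt_tauJ (g : ℕ → Bool) (j c : ℕ) (h : c < j) : gt (tauJ g j) c = g c := by
  unfold gt
  rw [List.getD_eq_getElem _ _ (by rw [length_tauJ]; exact h)]
  simp [tauJ]

private theorem isG_iff {G : Set ℕ} {g : ℕ → Bool} (hG : ∀ c, g c = true ↔ c ∉ G) (j : ℕ)
    (τ : List Bool) : isG G j τ ↔ τ = tauJ g j := by
  constructor
  · rintro ⟨h1, h2⟩
    refine List.ext_getElem (by rw [h1, length_tauJ]) fun i hi hi' => ?_
    have h3 : gt τ i = gt (tauJ g j) i := by
      rw [gt_tauJ g j i (by rw [← h1]; exact hi), Bool.eq_iff_iff, h2 i (by rw [← h1]; exact hi),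
        hG]
    unfold gt at h3
    rw [List.getD_eq_getElem _ _ hi, List.getD_eq_getElem _ _ hi'] at h3
    exact h3
  · rintro rfl
    refine ⟨length_tauJ g j, fun c hc => ?_⟩
    rw [gt_tauJ g j c hc, hG]

/-- `g` is the true guess at the limit stage `ζ`, `M τ` codes the history up to the cut of `τ` -/
theorem dec_glue {lab : Ordinal.{0} → Set ℕ} {ζ : Ordinal.{0}} (hζ : Order.IsSuccLimit ζ)
    {G : Set ℕ} {g : ℕ → Bool} (hG : ∀ c, g c = true ↔ c ∉ G) (hg : TrueG (fp lab) ζ g)
    (hcof : ∀ a < ζ, ∃ j, a < cut (fp lab) g ζ j) (M : List Bool → Set ℕ)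
    (hM : ∀ τ : List Bool, cut (fp lab) (gt τ) ζ τ.length < ζ →
      ∃ f, Dec (M τ) (cut (fp lab) (gt τ) ζ τ.length) lab f) :
    ∃ f, Dec (glue G M) ζ lab f := by
  set γ : ℕ → Ordinal.{0} := fun j => cut (fp lab) g ζ j with hγ
  have hγlt : ∀ j, γ j < ζ := fun j => cut_lt hζ hg j
  have hγm : Monotone γ := cut_mono (fp lab) g ζ
  have hcg : ∀ (j : ℕ) (b : Ordinal.{0}), cut (fp lab) (gt (tauJ g j)) b j =
      cut (fp lab) g b j := fun j b => cut_congr _ _ _ _ _ fun c hc => gt_tauJ g j c hc
  have hM' : ∀ j, ∃ f, Dec (M (tauJ g (j + 1))) (γ (j + 1)) lab f := by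
    intro j
    have h1 := hM (tauJ g (j + 1))
    rw [length_tauJ, hcg] at h1
    exact h1 (hγlt (j + 1))
  choose f hf using hM'
  have hdl : ∀ j k, domC (M (tauJ g (j + 1))) k → f j k < γ (j + 1) := fun j k hk =>
    (hf j).bij.mapsTo (show k ∈ {k | domC (M (tauJ g (j + 1))) k} from hk)
  -- the domain
  have hD : ∀ m, glD G M m ↔ domC (M (tauJ g ((Nat.unpair m).1 + 1))) (Nat.unpair m).2 ∧
      γ (Nat.unpair m).1 ≤ f (Nat.unpair m).1 (Nat.unpair m).2 := by
    intro m
    set j := (Nat.unpair m).1 with hj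
    set k := (Nat.unpair m).2 with hk
    have h1 : glD G M m ↔ ∃ x, domC (M (tauJ g (j + 1))) k ∧
        cutC (M (tauJ g (j + 1))) (tauJ g j) j x ∧ ¬ ltC (M (tauJ g (j + 1))) k x := by
      constructor
      · rintro ⟨τ, τ', x, h1, h2, h3⟩
        rw [isG_iff hG] at h1 h2
        subst h1
        subst h2
        exact ⟨x, h3⟩
      · rintro ⟨x, h3⟩
        exact ⟨_, _, x, (isG_iff hG _ _).2 rfl, (isG_iff hG _ _).2 rfl, h3⟩
    rw [h1]
    constructor
    · rintro ⟨x, h2, h3, h4⟩
      refine ⟨h2, ?_⟩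
      rw [cutC_iff (hf j), hcg] at h3
      obtain ⟨h5, h6⟩ := h3
      have h7 : γ j < γ (j + 1) := by
        refine lt_of_le_of_ne (hγm (Nat.le_succ j)) fun h8 => ?_
        have h9 := cut_ge (fp lab) g ζ j (hγlt j).le
        have h10 := hdl j x h5
        rw [h6] at h10
        have h11 : cut (fp lab) g ζ j = γ (j + 1) := h8
        rw [h11] at h9
        exact absurd h10 (not_lt.2 h9)
      have h8 : cut (fp lab) g (γ (j + 1)) j = γ j :=
        cut_stable (fp lab) g ζ (γ (j + 1)) j h7 (hγlt (j + 1)).le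
      rw [h8] at h6
      by_contra h9
      push Not at h9
      exact h4 (((hf j).lt _ _).2 ⟨h2, h5, by rw [h6]; exact h9⟩)
    · rintro ⟨h2, h3⟩
      have h7 : γ j < γ (j + 1) := h3.trans_lt (hdl j k h2)
      have h8 : cut (fp lab) g (γ (j + 1)) j = γ j :=
        cut_stable (fp lab) g ζ (γ (j + 1)) j h7 (hγlt (j + 1)).le
      obtain ⟨x, hx, hx'⟩ := (hf j).bij.surjOn (show γ j ∈ Set.Iio (γ (j + 1)) from h7)
      refine ⟨x, h2, (cutC_iff (hf j) _ _ _).2 ⟨hx, ?_⟩, fun h9 => ?_⟩
      · rw [hx', hcg, h8]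
      · have h10 := (((hf j).lt _ _).1 h9).2.2
        rw [hx'] at h10
        exact absurd h10 (not_lt.2 h3)
  have hord : ∀ m m', glD G M m → glD G M m' → (Nat.unpair m).1 < (Nat.unpair m').1 →
      f (Nat.unpair m).1 (Nat.unpair m).2 < f (Nat.unpair m').1 (Nat.unpair m').2 := by
    intro m m' h1 h2 h3
    rw [hD] at h1 h2
    exact ((hdl _ _ h1.1).trans_le (hγm (Nat.succ_le_of_lt h3))).trans_le h2.2
  refine ⟨fun m => f (Nat.unpair m).1 (Nat.unpair m).2, ?_, ?_, ?_⟩
  · refine ⟨?_, ?_, ?_⟩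
    · intro m hm
      have h1 : glD G M m := by simpa [glue] using hm
      exact (hdl _ _ ((hD m).1 h1).1).trans (hγlt _)
    · intro m hm m' hm' he
      have h1 : glD G M m := by simpa [glue] using hm
      have h2 : glD G M m' := by simpa [glue] using hm'
      have he' : f (Nat.unpair m).1 (Nat.unpair m).2 =
        f (Nat.unpair m').1 (Nat.unpair m').2 := he
      have h3 : (Nat.unpair m).1 = (Nat.unpair m').1 := by
        rcases lt_trichotomy (Nat.unpair m).1 (Nat.unpair m').1 with h | h | h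
        · exact absurd he' (hord _ _ h1 h2 h).ne
        · exact h
        · exact absurd he' (hord _ _ h2 h1 h).ne'
      rw [hD] at h1 h2
      rw [h3] at h1 he'
      have h4 := (hf _).bij.injOn (show (Nat.unpair m).2 ∈ {k | domC _ k} from h1.1)
        (show (Nat.unpair m').2 ∈ {k | domC _ k} from h2.1) he'
      rw [← Nat.pair_unpair m, ← Nat.pair_unpair m', h3, h4]
    · intro a ha
      classical
      have hex : ∃ j, a < γ j := hcof a ha
      obtain ⟨i, hi⟩ : ∃ i, Nat.find hex = i + 1 := by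
        refine Nat.exists_eq_succ_of_ne_zero fun h0 => ?_
        have h1 := Nat.find_spec hex
        rw [h0] at h1
        exact absurd h1 (not_lt.2 zero_le)
      have h1 : a < γ (i + 1) := by
        have := Nat.find_spec hex
        rwa [hi] at this
      have h2 : γ i ≤ a := not_lt.1 (Nat.find_min hex (m := i) (by omega))
      obtain ⟨k, hk, hk'⟩ := (hf i).bij.surjOn (show a ∈ Set.Iio (γ (i + 1)) from h1)
      refine ⟨Nat.pair i k, ?_, ?_⟩
      · have h3 : glD G M (Nat.pair i k) := by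
          rw [hD, Nat.unpair_pair]
          exact ⟨hk, by rw [hk']; exact h2⟩
        simpa [glue] using h3
      · show f (Nat.unpair (Nat.pair i k)).1 (Nat.unpair (Nat.pair i k)).2 = a
        rw [Nat.unpair_pair]
        exact hk'
  · intro m m'
    have h1 : ltC (glue G M) m m' ↔ glD G M m ∧ glD G M m' ∧
        ((Nat.unpair m).1 < (Nat.unpair m').1 ∨ ((Nat.unpair m).1 = (Nat.unpair m').1 ∧
          ∃ τ', isG G ((Nat.unpair m).1 + 1) τ' ∧
            ltC (M τ') (Nat.unpair m).2 (Nat.unpair m').2)) := by simp [glue]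
    have h2 : ∀ m, domC (glue G M) m ↔ glD G M m := fun m => by simp [glue]
    rw [h1, h2, h2]
    refine and_congr_right fun h3 => and_congr_right fun h4 => ?_
    constructor
    · rintro (h5 | ⟨h5, τ', h6, h7⟩)
      · exact hord _ _ h3 h4 h5
      · rw [isG_iff hG] at h6
        subst h6
        show f (Nat.unpair m).1 (Nat.unpair m).2 < f (Nat.unpair m').1 (Nat.unpair m').2
        rw [← h5]
        exact (((hf _).lt _ _).1 h7).2.2
    · intro h5
      rcases lt_trichotomy (Nat.unpair m).1 (Nat.unpair m').1 with h | h | h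
      · exact Or.inl h
      · refine Or.inr ⟨h, _, (isG_iff hG _ _).2 rfl, ((hf _).lt _ _).2 ⟨((hD m).1 h3).1, ?_, ?_⟩⟩
        · rw [h]
          exact ((hD m').1 h4).1
        · have h6 : f (Nat.unpair m).1 (Nat.unpair m).2 <
            f (Nat.unpair m').1 (Nat.unpair m').2 := h5
          rwa [← h] at h6
      · exact absurd h5 (not_lt.2 (hord _ _ h4 h3 h).le)
  · intro m i
    have h1 : labC (glue G M) m i ↔ glD G M m ∧ ∃ τ', isG G ((Nat.unpair m).1 + 1) τ' ∧
        labC (M τ') (Nat.unpair m).2 i := by simp [glue]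
    have h2 : domC (glue G M) m ↔ glD G M m := by simp [glue]
    rw [h1, h2]
    refine and_congr_right fun h3 => ?_
    constructor
    · rintro ⟨τ', h4, h5⟩
      rw [isG_iff hG] at h4
      subst h4
      exact (((hf _).lab _ _).1 h5).2
    · intro h4
      exact ⟨_, (isG_iff hG _ _).2 rfl, ((hf _).lab _ _).2 ⟨((hD m).1 h3).1, h4⟩⟩

end Pool.Agent.Helper88.RT
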