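import Pool.Agent.Helper88.RT.GlueSem

/-! # Module InvLim: the invariant at limits -/

set_option autoImplicit false

namespace Pool.Agent.Helper88.RT

open Pool.Agent.Helper25.EV Ordinal Encodable

variable (nl : List Instr) (y : Real2) (lab : Ordinal.{0} → Set ℕ)

section aux

variable {nl y lab}

theorem Inv.col1 {β : Ordinal.{0}} (h : Inv nl y lab β) : col 1 (mrun (mac nl) y β) = setOf' y := by
  rw [h.eq, col1_St]

theorem Inv.col4 {β : Ordinal.{0}} (h : Inv nl y lab β) :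
    col 4 (mrun (mac nl) y β) = Flf lab β := by
  rw [h.eq, col4_St]

theorem Inv.row {β : Ordinal.{0}} (h : Inv nl y lab β) :
    RT.row (mrun (mac nl) y β) = Mf nl y lab β := by
  rw [h.eq, row_St]

theorem mem_col_lsup {t n : ℕ} {ζ : Ordinal.{0}} : n ∈ col t (lsup nl y ζ) ↔
    ∀ a < ζ, ∃ γ, γ < ζ ∧ a ≤ γ ∧ n ∈ col t (mrun (mac nl) y γ) := Iff.rfl

theorem mem_row_lsup {τ : List Bool} {n : ℕ} {ζ : Ordinal.{0}} : n ∈ row (lsup nl y ζ) τ ↔
    ∀ a < ζ, ∃ γ, γ < ζ ∧ a ≤ γ ∧ n ∈ row (mrun (mac nl) y γ) τ := Iff.rfl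

theorem Mf_of_lt {β : Ordinal.{0}} {τ : List Bool}
    (h : cut (fp lab) (gt τ) β τ.length < β) :
    Mf nl y lab β τ = Cf nl y (cut (fp lab) (gt τ) β τ.length) := by
  ext n
  exact ⟨fun h' => h'.2, fun h' => ⟨h, h'⟩⟩

end aux

/-- the limit superior of the states below `ζ` is a good input of the limit operator -/
theorem gi_of_inv {ζ : Ordinal.{0}} (hζ : Order.IsSuccLimit ζ)
    (hi : ∀ β < ζ, Inv nl y lab β) : GI nl y lab ζ (lsup nl y ζ) := by
  have h0 : (0 : Ordinal.{0}) < ζ := hζ.bot_lt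
  refine ⟨?_, ?_, ?_⟩
  · ext n
    rw [mem_col_lsup]
    constructor
    · intro h
      obtain ⟨γ, hγ, _, hn⟩ := h 0 h0
      rwa [(hi γ hγ).col1] at hn
    · intro h a ha
      refine ⟨a, ha, le_rfl, ?_⟩
      rwa [(hi a ha).col1]
  · intro c
    rw [mem_col_lsup]
    constructor
    · rintro h ⟨a, ha, hs⟩
      have ha1 : a + 1 < ζ := by
        rw [Ordinal.add_one_eq_succ]
        exact hζ.succ_lt ha
      obtain ⟨γ, hγ, haγ, hn⟩ := h (a + 1) ha1
      rw [(hi γ hγ).col4] at hn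
      obtain ⟨α, hα, hc⟩ := hn
      rw [hα] at haγ hγ
      have h1 : a ≤ α := by
        rw [Ordinal.add_one_eq_succ, Ordinal.add_one_eq_succ, Order.succ_le_succ_iff] at haγ
        exact haγ
      have h2 : α < ζ := lt_trans (by rw [Ordinal.add_one_eq_succ]; exact Order.lt_succ α) hγ
      exact hs α h1 h2 hc
    · intro h a ha
      obtain ⟨α, h1, h2, h3⟩ := fire_of_not_Zc h a ha
      have h4 : α + 1 < ζ := by
        rw [Ordinal.add_one_eq_succ]
        exact hζ.succ_lt h2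
      refine ⟨α + 1, h4, h1.trans ?_, ?_⟩
      · rw [Ordinal.add_one_eq_succ]; exact Order.le_succ α
      · rw [(hi _ h4).col4]
        exact ⟨α, rfl, h3⟩
  · intro τ hτ
    have key : ∀ γ, γ < ζ → cut (fp lab) (gt τ) ζ τ.length < γ →
        row (mrun (mac nl) y γ) τ = Cf nl y (cut (fp lab) (gt τ) ζ τ.length) := by
      intro γ hγ h
      have h1 := cut_stable (fp lab) (gt τ) ζ γ τ.length h hγ.le
      rw [(hi γ hγ).row, Mf_of_lt (by rw [h1]; exact h), h1]
    have hs : Order.succ (cut (fp lab) (gt τ) ζ τ.length) < ζ := hζ.succ_lt hτ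
    ext n
    rw [mem_row_lsup]
    constructor
    · intro h
      obtain ⟨γ, hγ, h1, h2⟩ := h _ hs
      rwa [key γ hγ (Order.succ_le_iff.1 h1)] at h2
    · intro h a ha
      refine ⟨max a (Order.succ (cut (fp lab) (gt τ) ζ τ.length)), max_lt ha hs,
        le_max_left _ _, ?_⟩
      rw [key _ (max_lt ha hs) (Order.succ_le_iff.1 (le_max_right _ _))]
      exact h

/-- the result of the limit operator on a good input -/
theorem lim_out {ζ : Ordinal.{0}} (hζ : Order.IsSuccLimit ζ) (hpre : Pre (fp lab) ζ)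
    (hclock : ∀ α < ζ, 0 ∈ fp lab α) (hi : ∀ β < ζ, Inv nl y lab β) {S : Set ℕ}
    (hS : GI nl y lab ζ S) :
    F3 S = St False (setOf' y) (glue (col 4 S) (row S))
      (fun τ => {n | cut (fp lab) (gt τ) ζ τ.length < ζ ∧
        n ∈ Cf nl y (cut (fp lab) (gt τ) ζ τ.length)}) ∅ ∧
      ∃ f, Dec (glue (col 4 S) (row S)) ζ lab f := by
  classical
  have hG : ∀ c, decide (c ∉ col 4 S) = true ↔ c ∉ col 4 S := fun c => decide_eq_true_iff
  have hg : TrueG (fp lab) ζ (fun c => decide (c ∉ col 4 S)) := by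
    intro c
    rw [hG c, hS.fl c, not_not]
  obtain ⟨f, hf⟩ := dec_glue (lab := lab) hζ (G := col 4 S) hG hg
    (cut_cofinal hζ hpre hg hclock) (row S) (fun τ hτ => by
      rw [hS.row τ hτ]
      exact (hi _ hτ).code)
  refine ⟨?_, f, hf⟩
  unfold F3
  rw [hS.inp]
  congr 1
  funext τ
  ext n
  have h1 : (∃ x, cutC (glue (col 4 S) (row S)) τ τ.length x) ↔
      cut (fp lab) (gt τ) ζ τ.length < ζ := by
    constructor
    · rintro ⟨x, hx⟩
      rw [cutC_iff hf] at hx
      rw [← hx.2]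
      exact hf.bij.mapsTo hx.1
    · intro h
      obtain ⟨x, hx1, hx2⟩ := hf.bij.surjOn h
      exact ⟨x, (cutC_iff hf τ τ.length x).2 ⟨hx1, hx2⟩⟩
  constructor
  · rintro ⟨h2, h3⟩
    have h4 := h1.1 h2
    rw [hS.row τ h4] at h3
    exact ⟨h4, h3⟩
  · rintro ⟨h4, h3⟩
    refine ⟨h1.2 h4, ?_⟩
    rw [hS.row τ h4]
    exact h3

/-- good inputs have the same result -/
theorem lim_congr {ζ : Ordinal.{0}} (hζ : Order.IsSuccLimit ζ) (hpre : Pre (fp lab) ζ)
    (hclock : ∀ α < ζ, 0 ∈ fp lab α) (hi : ∀ β < ζ, Inv nl y lab β) {S S' : Set ℕ}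
    (hS : GI nl y lab ζ S) (hS' : GI nl y lab ζ S') : F3 S = F3 S' := by
  classical
  rw [(lim_out nl y lab hζ hpre hclock hi hS).1, (lim_out nl y lab hζ hpre hclock hi hS').1]
  have h4 : col 4 S = col 4 S' := by
    ext c
    rw [hS.fl c, hS'.fl c]
  have hglue : glue (col 4 S) (row S) = glue (col 4 S') (row S') := by
    rw [← h4]
    apply glue_congr
    intro j τ hτ
    have hg : TrueG (fp lab) ζ (fun c => decide (c ∉ col 4 S)) := by
      intro c
      rw [decide_eq_true_iff, hS.fl c, not_not]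
    have h5 : cut (fp lab) (gt τ) ζ τ.length < ζ := by
      rw [hτ.1]
      rw [cut_congr (fp lab) (gt τ) (fun c => decide (c ∉ col 4 S)) ζ j]
      · exact cut_lt hζ hg j
      · intro c hc
        rw [Bool.eq_iff_iff, hτ.2 c hc, decide_eq_true_iff]
    rw [hS.row τ h5, hS'.row τ h5]
  rw [hglue]

theorem inv_limit {ζ : Ordinal.{0}} (hζ : Order.IsSuccLimit ζ) (hpre : Pre (fp lab) ζ)
    (hclock : ∀ α < ζ, 0 ∈ fp lab α) (hi : ∀ β < ζ, Inv nl y lab β) : Inv nl y lab ζ := by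
  have hrun := mrun_limit nl y ζ hζ
  obtain ⟨h1, h2⟩ := lim_out nl y lab hζ hpre hclock hi (gi_of_inv nl y lab hζ hi)
  rw [h1] at hrun
  have hC : Cf nl y ζ = glue (col 4 (lsup nl y ζ)) (row (lsup nl y ζ)) := by
    unfold Cf
    rw [hrun, col2_St]
  have hne : ∀ α : Ordinal.{0}, ζ ≠ α + 1 := by
    rintro α rfl
    rw [Ordinal.add_one_eq_succ] at hζ
    exact Order.not_isSuccPrelimit_succ _ hζ.isSuccPrelimit
  refine ⟨?_, ?_⟩
  · rw [hC]
    refine hrun.trans ?_
    have e1 : (∃ α, ζ = α + 1 ∧ Nat.pair 9 0 ∈ lab α) = False := by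
      apply propext
      constructor
      · rintro ⟨α, hα, _⟩
        exact hne α hα
      · exact False.elim
    have e2 : Flf lab ζ = ∅ := by
      ext c
      constructor
      · rintro ⟨α, hα, _⟩
        exact absurd hα (hne α)
      · exact fun h => h.elim
    rw [e1, e2]
    rfl
  · rw [hC]
    exact h2

end Pool.Agent.Helper88.RT
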