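import Pool.Agent.Helper88.RT.ExtAr
import Pool.Agent.Helper88.RT.GlueAr

/-! # Module OpAr: the operators of the macro program are arithmetical -/

set_option autoImplicit false

namespace Pool.Agent.Helper88.RT

open Pool.Agent.Helper25.EV Ordinal Encodable

private theorem opAr_empty : ArOp fun _ => (∅ : Set ℕ) := by
  refine ArN.congr (ArN.prim (fun _ => false) (Primrec.const false)) ?_
  intro X n
  simp

private theorem opAr_false {α : Type} [Primcodable α] :
    Ar fun (_ : Set ℕ) (_ : α) => False := by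
  refine Ar.congr (Ar.prim (f := fun _ : α => false) (Primrec.const false)) ?_
  intro X a
  simp

private theorem opAr_id : ArOp fun X => X := ArN.mem (fun n => n) Primrec.id

theorem arOp_F0 : ArOp F0 := by
  have h := arOp_St (al := fun _ => False) (Y := fun X => X) (C := fun _ => ∅)
    (Fl := fun _ => ∅) (M := fun _ _ => ∅) opAr_false opAr_id opAr_empty opAr_empty (by
      refine Ar.congr (opAr_false (α := List Bool × ℕ)) ?_
      intro X p
      simp)
  exact h

theorem arOp_F1 : ArOp F1 := arOp_jn (arOp_jn (arOp_col 2) (arOp_col 1)) opAr_id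

theorem arOp_F2 : ArOp F2 := by
  have hcol1 : ArOp fun Z => col 1 (od Z) := ArOp.comp (arOp_col 1) arOp_od
  have hcol2 : ArOp fun Z => col 2 (od Z) := ArOp.comp (arOp_col 2) arOp_od
  have hC' : ArOp fun Z => extC (col 2 (od Z)) (ev Z) := arOp_extC hcol2 arOp_ev
  have hcut : Ar fun Z (p : List Bool × ℕ × ℕ) =>
      cutC (extC (col 2 (od Z)) (ev Z)) p.1 p.2.1 p.2.2 := Ar.subst ar_cutC hC'
  have hrow : Ar fun Z (p : List Bool × ℕ) => p.2 ∈ row (od Z) p.1 := Ar.subst ar_row arOp_od
  have h1 : Ar fun Z (p : List Bool × ℕ) =>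
      cutC (extC (col 2 (od Z)) (ev Z)) p.1 p.1.length 0 :=
    Ar.comp hcut (f := fun p : List Bool × ℕ => (p.1, p.1.length, 0))
      (Primrec.fst.pair ((Primrec.list_length.comp Primrec.fst).pair (Primrec.const 0)))
  have h2 : Ar fun Z (p : List Bool × ℕ) =>
      ∃ x, cutC (extC (col 2 (od Z)) (ev Z)) p.1 p.1.length (x + 1) := by
    refine Ar.ex (P := fun Z (p : List Bool × ℕ) (x : ℕ) =>
      cutC (extC (col 2 (od Z)) (ev Z)) p.1 p.1.length (x + 1)) ?_
    exact Ar.comp hcut (f := fun q : (List Bool × ℕ) × ℕ => (q.1.1, q.1.1.length, q.2 + 1))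
      ((Primrec.fst.comp Primrec.fst).pair
        ((Primrec.list_length.comp (Primrec.fst.comp Primrec.fst)).pair
          (Primrec.succ.comp Primrec.snd)))
  have hM : Ar fun Z (p : List Bool × ℕ) =>
      p.2 ∈ newM (extC (col 2 (od Z)) (ev Z)) (col 2 (od Z)) (row (od Z) p.1) p.1 := by
    refine Ar.congr (Ar.or (Ar.and h1 (Ar.comp (ArOp.toAr hcol2) Primrec.snd))
      (Ar.and h2 hrow)) ?_
    intro Z p
    exact Iff.rfl
  have hal : Ar fun Z (_ : ℕ) => Nat.pair 9 0 ∈ ev Z :=
    Ar.comp (ArOp.toAr arOp_ev) (f := fun _ : ℕ => Nat.pair 9 0) (Primrec.const _)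
  have h := arOp_St (al := fun Z => Nat.pair 9 0 ∈ ev Z) (Y := fun Z => col 1 (od Z))
    (C := fun Z => extC (col 2 (od Z)) (ev Z)) (Fl := fun Z => fires (ev Z))
    (M := fun Z τ => newM (extC (col 2 (od Z)) (ev Z)) (col 2 (od Z)) (row (od Z) τ) τ)
    hal hcol1 hC' (arOp_fires arOp_ev) hM
  exact h

theorem arOp_F3 : ArOp F3 := by
  have hgl : ArOp fun S => glue (col 4 S) (row S) := arOp_glue (arOp_col 4) ar_row
  have hcut : Ar fun S (p : List Bool × ℕ × ℕ) =>
      cutC (glue (col 4 S) (row S)) p.1 p.2.1 p.2.2 := Ar.subst ar_cutC hgl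
  have h2 : Ar fun S (p : List Bool × ℕ) =>
      ∃ x, cutC (glue (col 4 S) (row S)) p.1 p.1.length x := by
    refine Ar.ex (P := fun S (p : List Bool × ℕ) (x : ℕ) =>
      cutC (glue (col 4 S) (row S)) p.1 p.1.length x) ?_
    exact Ar.comp hcut (f := fun q : (List Bool × ℕ) × ℕ => (q.1.1, q.1.1.length, q.2))
      ((Primrec.fst.comp Primrec.fst).pair
        ((Primrec.list_length.comp (Primrec.fst.comp Primrec.fst)).pair Primrec.snd))
  have hM : Ar fun S (p : List Bool × ℕ) =>
      p.2 ∈ {n | (∃ x, cutC (glue (col 4 S) (row S)) p.1 p.1.length x) ∧ n ∈ row S p.1} :=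
    Ar.congr (Ar.and h2 ar_row) (fun _ _ => Iff.rfl)
  have h := arOp_St (al := fun _ => False) (Y := fun S => col 1 S)
    (C := fun S => glue (col 4 S) (row S)) (Fl := fun _ => ∅)
    (M := fun S τ => {n | (∃ x, cutC (glue (col 4 S) (row S)) τ τ.length x) ∧ n ∈ row S τ})
    opAr_false (arOp_col 1) hgl opAr_empty hM
  exact h

theorem mac_ok (nl : List Instr) (h : ∀ I ∈ nl, I.ok) : (mac nl).ok := by
  refine ⟨?_, ?_, ?_⟩
  · intro I hI
    simp only [mac, List.mem_singleton] at hI
    rw [hI]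
    exact arOp_F0
  · intro I hI
    simp only [mac, List.mem_append, List.mem_singleton, List.mem_map] at hI
    rcases hI with (hI | ⟨J, hJ, hI⟩) | hI
    · rw [hI]
      exact arOp_F1
    · rw [← hI]
      exact liftI_ok (h J hJ)
    · rw [hI]
      exact arOp_F2
  · intro I hI
    simp only [mac, List.mem_singleton] at hI
    rw [hI]
    exact arOp_F3

end Pool.Agent.Helper88.RT
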