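import Pool.Agent.Helper88.RT.Code

/-! # Module StL: columns of states, parts of codes -/

set_option autoImplicit false

namespace Pool.Agent.Helper88.RT

open Pool.Agent.Helper25.EV Ordinal Encodable

theorem pair_ne_zero (t n : ℕ) (ht : 0 < t) : Nat.pair t n ≠ 0 := by
  have := Nat.left_le_pair t n
  omega

section

variable (al : Prop) (Y C : Set ℕ) (M : List Bool → Set ℕ) (Fl : Set ℕ)

@[simp] theorem col1_St : col 1 (St al Y C M Fl) = Y := by
  ext n
  simp [col, St, pair_ne_zero 1 n (by norm_num)]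

@[simp] theorem col2_St : col 2 (St al Y C M Fl) = C := by
  ext n
  simp [col, St, pair_ne_zero 2 n (by norm_num)]

@[simp] theorem col4_St : col 4 (St al Y C M Fl) = Fl := by
  ext n
  simp [col, St, pair_ne_zero 4 n (by norm_num)]

@[simp] theorem row_St : row (St al Y C M Fl) = M := by
  funext τ
  ext n
  simp [row, St, pair_ne_zero 3 _ (by norm_num)]

@[simp] theorem zero_mem_St : 0 ∈ St al Y C M Fl ↔ al := by
  simp [St]

end

section

variable (D : ℕ → Prop) (L B : ℕ → ℕ → Prop)

@[simp] theorem domC_mkC (k : ℕ) : domC (mkC D L B) k ↔ D k := by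
  simp [domC, mkC]

@[simp] theorem ltC_mkC (k k' : ℕ) : ltC (mkC D L B) k k' ↔ L k k' := by
  simp [ltC, mkC]

@[simp] theorem labC_mkC (k i : ℕ) : labC (mkC D L B) k i ↔ B k i := by
  simp [labC, mkC]

end

theorem codesH_of_dec {X : Set ℕ} {β : Ordinal.{0}} {lab : Ordinal.{0} → Set ℕ}
    {f : ℕ → Ordinal.{0}} (h : Dec X β lab f) : CodesH X β lab :=
  ⟨f, h.bij, h.lt, h.lab⟩

end Pool.Agent.Helper88.RT
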